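import Pool.Agent.D0H60.VDR.Pt9
import Pool.Agent.N747.AC.Ram

/-!
# Vojta's inequality on all covers of projective space over a number field `k`, at ALL points above
# almost all points of degree `r` over `k`

Let `k` be a number field, `r ≥ 1` and `n = r [k : ℚ]`. Suppose that `r = 1` and `m ≥ 2` (or `m ≥ 1` if
`k ≠ ℚ`), or that `m ≥ n + 1`, or that `r ≤ m + 1` and `m ≥ c n ^ η`, where `η > 0` is arbitrary and `c`
depends only on `η`. There is ONE set `E₀` of points of `ℙ^m`, of density zero among the points of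
degree `r` over `k` whose coordinates span a space of dimension `r` over `k` (and among all points of
degree `r`, if `r ≤ 2` or `m` is large), and with at most `exp ([k : ℚ] (m + 1) T - Ψ(T))` points over
`k` of height at most `T` if `r = 1`, for any given `Ψ(T) = o(T)`, such that on ALL covers
`π : X → ℙ^m` over `k`, of any degree, Vojta's inequality with truncated counting functions holds at
ALL algebraic points `P` of `X` above the points `x ∉ E₀` of degree `r` and large height. The residue
field `K = k(x)` varies with `x`, and nothing is assumed about `k(P)`. So, for instance if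
`m ≥ d [k : ℚ] + 1`, this applies to all closed points `P` of `X` of degree at most `d` over `k` for
which `π(P)` is not in the exceptional sets for `r = 1, …, d`; if `r = 1` it applies to all covers of
projective spaces of any dimension over any number field `k ≠ ℚ`.

Divisors. Let `A` be the ring of the functions on `X` which are regular over the affine space
`x_0 ≠ 0`, with coordinates `z_i = x_i / x_0`; it is integral over `k[z_1, …, z_m]`, and nothing else
is assumed about `A`. Let `F_1, …, F_q` be different irreducible forms over `k`, different from `x_0`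
(components of the branch divisor and of the image of `D`), of degrees `κ_j`, and let `E_1, …, E_u` be
different prime divisors of `X` above the `F_j = 0`. The divisor `E_i` is given by a prime ideal `𝔮_i`
of `A` with `𝔮_i ∩ k[z] = (f_{c_i})`, `f_j = F_j(1, z)`, and `f_{c_i}` vanishes on it with multiplicity
at least `e_i ≥ 1` (for normal `X` one can take the ramification index for `e_i`). We write
`R_π = ∑ (e_i - 1) E_i`, the part of the ramification divisor above the `F_j = 0`, and
`D = ∑_{i ∈ D} E_i` for an arbitrary subset `D` of the `E_i`.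

Heights. Let `𝔮_i` be generated by elements `a_1, a_2, …`. For all large `d_1, d_2, …` the `x_0^{d_s} a_s`
are regular sections of `π^* O(d_s)` on `X`. The closed subscheme of `X` given by `F_{c_i} = 0` and
`x_0^{d_s} a_s = 0` for all `s` contains the closure `E_i` of `𝔮_i`. Hence the height `h_i(P)` relative
to this subscheme, the sum of the local heights
`- log max (|F_{c_i}(x)|_w / |x|_w ^ κ_{c_i}, (|x_0|_w / |x|_w) ^ d_s |a_s(P)|_w)`
(`divisorHeight`, with `Z_i` the set of the pairs `(d_s, a_s)`) is at least the Weil height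
`h_{E_i}(P) - O(1)`. (The inequality holds for all `d_s ≥ 0`.) So we obtain

`h_{R_π + D}(P) + M m_{S'}(R, x) + Λ ∑ h_{(F'_l, G'_l)}(x) ≤
  N_S^(1)(D, P) + d(P) - d(x) + ε h(x) + ∑_{p ∈ S} log p`

for all `x ∉ E₀` of large height and all finite sets `S` of primes, where `d` denotes the logarithmic
discriminant, `R` is any form (proximity to all divisors and ideals on `X` is bounded by such terms),
`S'`, `M`, `Λ` are arbitrary and `(F'_l, G'_l)` are ideals of codimension two (their heights bound the
heights relative to the divisors which are contracted by a birational morphism `X' → X`, `X'`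
smooth). As `K_X = R_π + R' - (m + 1) π^* H`, `R'` the rest of the ramification divisor, this implies
Vojta's inequality `h_{K_X + D}(P) ≤ N_S^(1)(D, P) + d(P) + ε h(x) + O(1)` if
`h_{R'}(P) ≤ (m + 1) h(x) + O(1)`, for instance if `R' = 0`.

The forms `F_j` are of degree at most two, or orbits of conjugate hyperplanes any `s` of which have
linear forms spanning a space of dimension greater than `s / 3`, for instance at most `3 m + 2`
conjugate hyperplanes in general position. Their number, singularities and intersections are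
arbitrary.

Known before (starting files): for `r = 1` the points of degree `N`, the degree of `X`, above almost
all RATIONAL points, with the degree of the push-forward of `R_π + D` in place of the height, and, for
`r ≥ 2`, the points of full degree of abelian covers for `D = 0`.

Proof (`Pool.Agent.D0H60.VDR`). A cover over `k` gives for each `F_j` a form `G_j` not divisible by
`F_j` and an integer `n₀` such that for ALL number fields `K ⊇ k`, all points `x` over `K` and all
primes `v` of `K` which do not divide `n₀`, at which `x` meets `F_j = 0` with multiplicity one and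
does not meet `G_j = 0`, and all points `P` above `x`, at every prime `w | v` of `L = k(P)` the point
meets at most one of the `E_i` above `F_j = 0`, and if it meets `E_i` with multiplicity `n` then
`n e_i` is at most the ramification index of `w` in `L / K`. Hence the contribution of `w` to
`h_{R_π + D}(P)` is at most its contribution to the relative different plus its contribution to the
truncated counting function. Over `K` the form `F_j` may decompose; its irreducible factors are again
of degree at most two or orbits of hyperplanes with the same property, and almost all points of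
`ℙ^m(K)` meet each of them mostly with multiplicity one (geometry of numbers, starting files); the
other primes contribute little. The sets of bad points over the fields `K`, of which there are
infinitely many, are combined by a bound for the number of points of bounded height over `K` which is
uniform in `K`.
-/

set_option autoImplicit false

namespace Pool.Agent.Results.MP_9b9442_nt.CoversOverNumberFields

open NumberField IsDedekindDomain Module MvPolynomial
open scoped LinearAlgebra.Projectivization

/-! ### Points, fields of definition, heights, densities -/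

/-- The complex point of a point over the subfield `K` of `ℂ`. -/
noncomputable def toC {K : IntermediateField ℚ ℂ} {m : ℕ} (Q : ℙ K (Fin (m + 1) → K)) :
    ℙ ℂ (Fin (m + 1) → ℂ) :=
  Projectivization.mk ℂ (fun i => ((Q.rep i : K) : ℂ)) (fun h => Q.rep_nonzero
    (funext fun i => Subtype.ext (congrFun h i)))

/-- The field of definition `k(P)` of the point `P`: it is generated over `k` by the quotients of
the coordinates of `P`. -/
noncomputable def fieldOf (k : IntermediateField ℚ ℂ) {m : ℕ} (P : ℙ ℂ (Fin (m + 1) → ℂ)) :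
    IntermediateField ℚ ℂ :=
  k ⊔ IntermediateField.adjoin ℚ {z : ℂ | ∃ i j, P.rep j ≠ 0 ∧ z = P.rep i / P.rep j}

/-- the dimension over `k` of the space spanned by the homogeneous coordinates of `P` -/
noncomputable def spanDim (k : IntermediateField ℚ ℂ) {m : ℕ} (P : ℙ ℂ (Fin (m + 1) → ℂ)) : ℕ :=
  finrank k (Submodule.span k (Set.range P.rep))

/-- the absolute logarithmic height of a point of `ℙ^m(K)` -/
noncomputable def height {K : Type} [Field K] [NumberField K] {m : ℕ}
    (Q : ℙ K (Fin (m + 1) → K)) : ℝ :=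
  Real.log Q.mulHeight / finrank ℚ K

/-- the points of `ℙ^m` whose field of definition has degree `r` over `k`, of absolute logarithmic
height at most `T` -/
def All (k : IntermediateField ℚ ℂ) (m r : ℕ) (T : ℝ) : Set (ℙ ℂ (Fin (m + 1) → ℂ)) :=
  {P | ∃ (K : IntermediateField ℚ ℂ) (_ : NumberField K) (_ : k ≤ K)
    (Q : ℙ K (Fin (m + 1) → K)), fieldOf k P = K ∧
    finrank ℚ K = r * finrank ℚ k ∧ toC Q = P ∧ height Q ≤ T}

/-- those of these points whose coordinates span a space of dimension `r` over `k` -/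
def Full (k : IntermediateField ℚ ℂ) (m r : ℕ) (T : ℝ) : Set (ℙ ℂ (Fin (m + 1) → ℂ)) :=
  {P | spanDim k P = r ∧ ∃ (K : IntermediateField ℚ ℂ) (_ : NumberField K) (_ : k ≤ K)
    (Q : ℙ K (Fin (m + 1) → K)), fieldOf k P = K ∧
    finrank ℚ K = r * finrank ℚ k ∧ toC Q = P ∧ height Q ≤ T}

/-- the set `E` has density zero in the exhaustion `F` -/
def DensityZero {X : Type} (F : ℝ → Set X) (E : Set X) : Prop :=
  ∀ ε : ℝ, 0 < ε → ∃ B₀ : ℝ, ∀ B : ℝ, B₀ ≤ B → ((E ∩ F B).ncard : ℝ) ≤ ε * ((F B).ncard : ℝ)

/-! ### Forms, discriminants, proximity functions, ideals -/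

/-- the form `F` over the larger field `K` -/
noncomputable def formOver {k K : IntermediateField ℚ ℂ} (h : k ≤ K) {m : ℕ}
    (F : MvPolynomial (Fin (m + 1)) (𝓞 k)) : MvPolynomial (Fin (m + 1)) (𝓞 K) :=
  MvPolynomial.map (RingOfIntegers.mapRingHom (IntermediateField.inclusion h).toRingHom) F

/-- the form `F` over `ℂ` -/
noncomputable def cx {k : IntermediateField ℚ ℂ} {m : ℕ} (F : MvPolynomial (Fin (m + 1)) (𝓞 k)) :
    MvPolynomial (Fin (m + 1)) ℂ :=
  MvPolynomial.map ((algebraMap k ℂ).comp (algebraMap (𝓞 k) k)) F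

/-- The prime `w` of `L` is not above a prime number in `S`. -/
def Outside {L : Type} [Field L] [NumberField L] (S : Finset ℕ) (w : HeightOneSpectrum (𝓞 L)) :
    Prop := ∀ p ∈ S, (p : 𝓞 L) ∉ w.asIdeal

/-- the logarithmic discriminant `d(L) = log |disc L| / [L : ℚ]` -/
noncomputable def logDisc (L : Type) [Field L] [NumberField L] : ℝ :=
  Real.log |(discr L : ℝ)| / finrank ℚ L

/-- the local height `log (|x|_v ^ d / |R(x)|_v)` relative to the hypersurface `R = 0`, `R` a form of
degree `d`, for the absolute value `v` -/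
noncomputable def localHeight {K : Type} [Field K] [NumberField K] {m : ℕ}
    (R : MvPolynomial (Fin (m + 1)) (𝓞 K)) (d : ℕ) (x : Fin (m + 1) → K) (v : K → ℝ) : ℝ :=
  Real.log ((⨆ j, v (x j)) ^ d / v (aeval x R))

/-- The proximity function `m_S(R, x)`: the sum of the local heights relative to `R = 0` at the places
of `K` above `S` and infinity (with their multiplicities), divided by `[K : ℚ]`. -/
noncomputable def proximity {K : Type} [Field K] [NumberField K] {m : ℕ} (S : Finset ℕ)
    (R : MvPolynomial (Fin (m + 1)) (𝓞 K)) (d : ℕ) (x : Fin (m + 1) → K) : ℝ :=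
  (∑ w : InfinitePlace K, (w.mult : ℝ) * localHeight R d x w +
    ∑ᶠ w ∈ {w : HeightOneSpectrum (𝓞 K) | ¬ Outside S w}, localHeight R d x (FinitePlace.mk w)) /
    finrank ℚ K

/-- the local height `- log max (|F(x)|_v / |x|_v ^ a, |G(x)|_v / |x|_v ^ b)` relative to the ideal
`(F, G)`, `F` and `G` forms of degrees `a` and `b` -/
noncomputable def idealLocal {K : Type} [Field K] [NumberField K] {m : ℕ}
    (F G : MvPolynomial (Fin (m + 1)) (𝓞 K)) (a b : ℕ) (x : Fin (m + 1) → K) (v : K → ℝ) : ℝ :=
  - Real.log (max (v (aeval x F) / (⨆ i, v (x i)) ^ a) (v (aeval x G) / (⨆ i, v (x i)) ^ b))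

/-- the height `h_{(F, G)}(x)` relative to the ideal `(F, G)`: the sum of the local heights at all
places of `K`, divided by `[K : ℚ]` -/
noncomputable def idealHeight {K : Type} [Field K] [NumberField K] {m : ℕ}
    (F G : MvPolynomial (Fin (m + 1)) (𝓞 K)) (a b : ℕ) (x : Fin (m + 1) → K) : ℝ :=
  (∑ w : InfinitePlace K, (w.mult : ℝ) * idealLocal F G a b x w +
    ∑ᶠ v : FinitePlace K, idealLocal F G a b x v) / finrank ℚ K

/-! ### Covers and their prime divisors -/

/-- the affine equation `F(1, z_1, …, z_m)` of a form `F` -/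
noncomputable def affine {k : IntermediateField ℚ ℂ} [NumberField k] {m : ℕ}
    (F : MvPolynomial (Fin (m + 1)) (𝓞 k)) : MvPolynomial (Fin m) k :=
  eval₂ (C.comp (algebraMap (𝓞 k) k)) (Fin.cons 1 X) F

/-- `f` is of degree `κ ≤ 2`, or `f` is a product of `κ` linear forms any `s ≥ 1` of which span a
space of dimension greater than `s / 3`. -/
def FullWeight {m : ℕ} (f : MvPolynomial (Fin (m + 1)) ℂ) (κ : ℕ) : Prop :=
  κ ≤ 2 ∨ ∃ a : Fin κ → Fin (m + 1) → ℂ, f = ∏ i, ∑ j, C (a i j) * X j ∧
    ∀ s : Finset (Fin κ), s.Nonempty → s.card < 3 * finrank ℂ (Submodule.span ℂ (a '' s))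

/-- `𝔮` is a prime divisor of `Spec A` above the prime divisor `f = 0` of the affine space; it is
generated by the elements `a` of the pairs `(d, a) ∈ Z`, and `f` vanishes on it with multiplicity at
least `e ≥ 1`: one has `f ∈ 𝔮 ^ e A_𝔮`. -/
def PrimeDivisor {k : IntermediateField ℚ ℂ} {m : ℕ} {A : Type} [CommRing A]
    [Algebra (MvPolynomial (Fin m) k) A] (f : MvPolynomial (Fin m) k) (𝔮 : Ideal A)
    (Z : Finset (ℕ × A)) (e : ℕ) : Prop :=
  𝔮.IsPrime ∧ 𝔮.comap (algebraMap (MvPolynomial (Fin m) k) A) = Ideal.span {f} ∧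
    Ideal.span (Prod.snd '' (Z : Set (ℕ × A))) = 𝔮 ∧ 1 ≤ e ∧
    ∃ a, a ∉ 𝔮 ∧ a * algebraMap (MvPolynomial (Fin m) k) A f ∈ 𝔮 ^ e

/-- the affine coordinates `z_i = x_i / x_0` -/
noncomputable def coords {K : Type} [Field K] {m : ℕ} (x : Fin (m + 1) → K) : Fin m → K :=
  fun i => x i.succ / x 0

/-- the local height `- log max (|F(x)|_v / |x|_v ^ κ, (|x_0|_v / |x|_v) ^ d |ψ(a)|_v)`, `(d, a) ∈ Z`,
of the point given by `ψ : A → L` above `x`, for the absolute value `v` of `L` -/
noncomputable def divisorLocal {K : Type} [Field K] [NumberField K] {m : ℕ}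
    (F : MvPolynomial (Fin (m + 1)) (𝓞 K)) (κ : ℕ) {A : Type} (Z : Finset (ℕ × A))
    (x : Fin (m + 1) → K) {L : Type} [Field L] [Algebra K L] (ψ : A → L) (v : L → ℝ) : ℝ :=
  - Real.log (max (v (algebraMap K L (aeval x F)) / (⨆ i, v (algebraMap K L (x i))) ^ κ)
    (⨆ a : {a // a ∈ Z}, (v (algebraMap K L (x 0)) / ⨆ i, v (algebraMap K L (x i))) ^ a.1.1 *
      v (ψ a.1.2)))

/-- The height of the point given by `ψ : A → L` above `x` relative to a prime divisor above
`F = 0`: the sum of the local heights at all places of `L`, divided by `[L : ℚ]`. -/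
noncomputable def divisorHeight {K : Type} [Field K] [NumberField K] {m : ℕ}
    (F : MvPolynomial (Fin (m + 1)) (𝓞 K)) (κ : ℕ) {A : Type} (Z : Finset (ℕ × A))
    (x : Fin (m + 1) → K) {L : Type} [Field L] [NumberField L] [Algebra K L] (ψ : A → L) : ℝ :=
  (∑ w : InfinitePlace L, (w.mult : ℝ) * divisorLocal F κ Z x ψ w +
    ∑ᶠ w : HeightOneSpectrum (𝓞 L), divisorLocal F κ Z x ψ (FinitePlace.mk w)) / finrank ℚ L

open Classical in
/-- the truncated counting function `N_S^(1)(D, P)` of the point `P` given by the homomorphism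
`ψ : A → L` above the point with affine coordinates `z` in `K ⊇ k`: the sum of
`log N(w) / [L : ℚ]` over the primes `w` of `L`, not above primes in `S`, at which `z` is integral and
`P` meets `D`: for some `i ∈ D` one has `|f_{c_i}(z)|_w < 1` and `|ψ(a)|_w < 1` for all
`(d, a) ∈ Z_i` -/
noncomputable def truncated {k K : IntermediateField ℚ ℂ} [NumberField k] [NumberField K]
    (h : k ≤ K) {m q u : ℕ} {A : Type} [CommRing A] (S : Finset ℕ)
    (f : Fin q → MvPolynomial (Fin m) k) (c : Fin u → Fin q) (Z : Fin u → Finset (ℕ × A))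
    (D : Finset (Fin u)) (z : Fin m → K)
    {L : Type} [Field L] [NumberField L] [Algebra K L] (ψ : A →+* L) : ℝ :=
  (∑ᶠ w : HeightOneSpectrum (𝓞 L),
    if Outside S w ∧ (∀ i, FinitePlace.mk w (algebraMap K L (z i)) ≤ 1) ∧
      ∃ i ∈ D, FinitePlace.mk w
        (algebraMap K L (eval₂ (IntermediateField.inclusion h).toRingHom z (f (c i)))) < 1 ∧
        ∀ a ∈ Z i, FinitePlace.mk w (ψ a.2) < 1
    then Real.log (Ideal.absNorm w.asIdeal) else 0) / finrank ℚ L

open Classical in
/-- The inequality at the point `Q` of `ℙ^m(K)`, `K ⊇ k`: `Q` is not on the divisors `x_0 = 0`,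
`F_j = 0`, `R = 0`, and for all number fields `L ⊇ K` and all points `P` of `Spec A` over `L` above
`Q`, given by homomorphisms `ψ : A → L`, and all finite sets `S` of primes
`∑_i (e_i - 1 + [i ∈ D]) h_i(P) - ε h(Q) + M m_{S'}(R, Q) + Λ ∑_l h_{(F'_l, G'_l)}(Q) ≤
  N_S^(1)(D, P) + d(L) - d(K) + ∑_{p ∈ S} log p`. -/
def Inequality {k K : IntermediateField ℚ ℂ} [NumberField k] [NumberField K] (h : k ≤ K) {m : ℕ}
    (A : Type) [CommRing A] [Algebra (MvPolynomial (Fin m) k) A] {q u t : ℕ}
    (F : Fin q → MvPolynomial (Fin (m + 1)) (𝓞 k)) (κ : Fin q → ℕ) (c : Fin u → Fin q)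
    (Z : Fin u → Finset (ℕ × A)) (e : Fin u → ℕ) (D : Finset (Fin u)) (d : ℕ)
    (R : MvPolynomial (Fin (m + 1)) (𝓞 k)) (S' : Finset ℕ)
    (F' G' : Fin t → MvPolynomial (Fin (m + 1)) (𝓞 k)) (κ' ε' : Fin t → ℕ) (M Λ : ℕ) (ε : ℝ)
    (Q : ℙ K (Fin (m + 1) → K)) : Prop :=
  Q.rep 0 ≠ 0 ∧ (∀ j, aeval Q.rep (formOver h (F j)) ≠ 0) ∧ aeval Q.rep (formOver h R) ≠ 0 ∧
    ∀ (L : Type) [Field L] [NumberField L] [Algebra K L] (ψ : A →+* L),
      (∀ f : MvPolynomial (Fin m) k, ψ (algebraMap (MvPolynomial (Fin m) k) A f) =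
        algebraMap K L (eval₂ (IntermediateField.inclusion h).toRingHom (coords Q.rep) f)) →
      ∀ S : Finset ℕ, (∀ p ∈ S, p.Prime) →
      ∑ i, ((e i : ℝ) - 1 + if i ∈ D then 1 else 0) *
            divisorHeight (formOver h (F (c i))) (κ (c i)) (Z i) Q.rep ψ - ε * height Q +
          M * proximity S' (formOver h R) d Q.rep +
          Λ * ∑ l, idealHeight (formOver h (F' l)) (formOver h (G' l)) (κ' l) (ε' l) Q.rep ≤
        truncated h S (fun j => affine (F j)) c Z D (coords Q.rep) ψ + logDisc L - logDisc K +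
          ∑ p ∈ S, Real.log p

/-- `min (n + 1, c n ^ η)` -/
noncomputable def threshold (c η : ℝ) (n : ℕ) : ℝ := min ((n : ℝ) + 1) (c * (n : ℝ) ^ η)

/-- **One exceptional set for all covers of projective space over `k` and all points above the points
of degree `r`.** Let `η > 0` and let `Ψ` be a function with `Ψ(T) ≤ c T` for every `c > 0` and all
`T ≥ T₀(c)`. There is a constant `c` with the following property. Let `k ⊆ ℂ` be a
number field, `m, r ≥ 1`, `n = r [k : ℚ]`, and suppose that `r = 1` and `m ≥ 2` or `k ≠ ℚ`, or that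
`r ≤ m + 1` and `m ≥ min (n + 1, c n ^ η)`. There is ONE set `E₀` of points of `ℙ^m` such that

(1) `E₀` has density zero (with respect to the absolute height) among the points whose field of
definition has degree `r` over `k` and whose coordinates span a space of dimension `r` over `k`; and
if `r ≤ 2` or `r (r - 1) (min (n + 1, c n ^ η) + 1) + r ≤ m + 1` then `E₀` and the points whose
coordinates do not span a space of dimension `r` have density zero among ALL points of degree `r` over
`k`; and if `r = 1` then `E₀` contains at most `exp ([k : ℚ] (m + 1) T - Ψ(T))` points of `ℙ^m(k)` of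
height at most `T`, for all `T ≥ 0` (there are about `exp ([k : ℚ] (m + 1) T)` points of `ℙ^m(k)`);

(2) let `A` be any ring which is integral over `k[z_1, …, z_m]`; let `F_1, …, F_q` be forms over `O_k`
of degrees `κ_j`, irreducible over `k`, different from `x_0` and pairwise not associated, of degree at
most two or products over `ℂ` of linear forms any `s ≥ 1` of which span a space of dimension greater
than `s / 3`; let `𝔮_1, …, 𝔮_u` be different prime divisors of `Spec A`, `𝔮_i` above `F_{c_i} = 0`,
on which `F_{c_i}` vanishes with multiplicity at least `e_i ≥ 1`, generated by the elements `a` of the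
pairs `(d, a)` in the finite sets `Z_i`; let `D` be a set of some of them; let `R ≠ 0` be a form of
degree `d` over `O_k`, `S'` a finite set of primes, `(F'_l, G'_l)` pairs of forms over `O_k`, `F'_l`
irreducible over `ℂ` and not a divisor of `G'_l`, `M`, `Λ` natural numbers and `ε > 0`. There is `T`
such that the inequality holds at ALL points `Q ∉ E₀` of height `h(Q) > T` whose field of definition
`K` has degree `r` over `k`, and at all points of `Spec A` above `Q`, of any degree. -/
theorem result (η : ℝ) (hη : 0 < η) (Ψ : ℝ → ℝ)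
    (hΨ : ∀ c : ℝ, 0 < c → ∃ T₀ : ℝ, ∀ T : ℝ, T₀ ≤ T → Ψ T ≤ c * T) :
    ∃ c₀ : ℝ, ∀ (k : IntermediateField ℚ ℂ) [NumberField k] (m r : ℕ), 1 ≤ m → 1 ≤ r →
    (r = 1 ∧ (2 ≤ m ∨ 2 ≤ finrank ℚ k)) ∨
      (r ≤ m + 1 ∧ threshold c₀ η (r * finrank ℚ k) ≤ m) →
    ∃ E₀ : Set (ℙ ℂ (Fin (m + 1) → ℂ)), DensityZero (Full k m r) E₀ ∧
      (r ≤ 2 ∨ (r : ℝ) * (r - 1) * (threshold c₀ η (r * finrank ℚ k) + 1) + r ≤ m + 1 →
        DensityZero (All k m r) (E₀ ∪ {P | spanDim k P ≠ r})) ∧
      (r = 1 → ∀ T : ℝ, 0 ≤ T → ((E₀ ∩ All k m r T).ncard : ℝ) ≤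
        Real.exp ((finrank ℚ k : ℝ) * (m + 1) * T - Ψ T)) ∧
      -- for all covers
      ∀ (A : Type) [CommRing A] [Algebra (MvPolynomial (Fin m) k) A]
        [Algebra.IsIntegral (MvPolynomial (Fin m) k) A]
        -- all components of the branch divisor and of the image of `D`
        (q : ℕ) (F : Fin q → MvPolynomial (Fin (m + 1)) (𝓞 k)) (κ : Fin q → ℕ),
        (∀ j, (F j).IsHomogeneous (κ j)) →
        (∀ j, Irreducible (map (algebraMap (𝓞 k) k) (F j))) →
        (∀ j, Irreducible (affine (F j))) →
        (∀ i j, i ≠ j →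
          ¬ Associated (map (algebraMap (𝓞 k) k) (F i)) (map (algebraMap (𝓞 k) k) (F j))) →
        (∀ j, FullWeight (cx (F j)) (κ j)) →
        -- all prime divisors above them, and all divisors `D`
        ∀ (u : ℕ) (c : Fin u → Fin q) (𝔮 : Fin u → Ideal A) (Z : Fin u → Finset (ℕ × A))
          (e : Fin u → ℕ) (D : Finset (Fin u)), Function.Injective 𝔮 →
        (∀ i, PrimeDivisor (affine (F (c i))) (𝔮 i) (Z i) (e i)) →
        -- all proximity functions and ideals
        ∀ (d : ℕ) (R : MvPolynomial (Fin (m + 1)) (𝓞 k)), R.IsHomogeneous d → R ≠ 0 →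
        ∀ S' : Finset ℕ, (∀ p ∈ S', p.Prime) →
        ∀ (t : ℕ) (F' G' : Fin t → MvPolynomial (Fin (m + 1)) (𝓞 k)) (κ' ε' : Fin t → ℕ),
        (∀ l, (F' l).IsHomogeneous (κ' l)) → (∀ l, (G' l).IsHomogeneous (ε' l)) →
        (∀ l, Irreducible (cx (F' l))) → (∀ l, ¬ cx (F' l) ∣ cx (G' l)) →
        ∀ (M Λ : ℕ) (ε : ℝ), 0 < ε → ∃ T : ℝ,
          -- all points of degree `r` outside `E₀`, of large height, and all points above them
          ∀ (K : IntermediateField ℚ ℂ) (_ : NumberField K) (h : k ≤ K)
            (Q : ℙ K (Fin (m + 1) → K)), fieldOf k (toC Q) = K →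
            finrank ℚ K = r * finrank ℚ k → toC Q ∉ E₀ → T < height Q →
            Inequality h A F κ c Z e D d R S' F' G' κ' ε' M Λ ε Q := by
  classical
  obtain ⟨c₀, hc₀, hmain⟩ := Pool.Agent.D0H60.VDR.main11 Pool.Agent.N747.AC.ram Ψ hΨ η hη
  refine ⟨2 * c₀ + 1, fun k _ m r hm hr hyp => ?_⟩
  obtain ⟨n, hn⟩ : ∃ n : ℕ, n = r * finrank ℚ k := ⟨_, rfl⟩
  rw [← hn] at hyp ⊢
  have hk1 : 1 ≤ finrank ℚ k := finrank_pos
  have hrn : r ≤ n := by
    rw [hn]
    exact Nat.le_mul_of_pos_right r hk1
  have hn1 : 1 ≤ n := hr.trans hrn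
  obtain ⟨-, hcases⟩ := hmain k m r n hm hr hn
  -- the exponent of the number of number fields of degree `n`
  have hthr : 2 ≤ n → 2 * Pool.Agent.Results.MP_44a246_nt.BoundedDegreeHyperplanes.alpha n c₀ η <
      threshold (2 * c₀ + 1) η n := by
    intro hn2
    have hα' := (hmain k (n + 1) r n (by omega) hr hn).1 hn2 le_rfl
    push_cast at hα'
    have hnη : 0 < (n : ℝ) ^ η := Real.rpow_pos_of_pos (by exact_mod_cast hn1) η
    have h1 : Pool.Agent.Results.MP_44a246_nt.BoundedDegreeHyperplanes.alpha n c₀ η ≤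
        c₀ * (n : ℝ) ^ η := min_le_right _ _
    refine lt_min hα' ?_
    calc _ ≤ 2 * (c₀ * (n : ℝ) ^ η) := by linarith
      _ < (2 * c₀ + 1) * (n : ℝ) ^ η := by linarith
  have hcase : (r = 1 ∧ 3 ≤ n * (m + 1)) ∨
      (2 ≤ n ∧ 2 * Pool.Agent.Results.MP_44a246_nt.BoundedDegreeHyperplanes.alpha n c₀ η < m ∧
        r ≤ m + 1) := by
    rcases hyp with ⟨h1, h2⟩ | ⟨h1, h2⟩
    · refine Or.inl ⟨h1, ?_⟩
      rcases h2 with h2 | h2
      · calc 3 ≤ 1 * (m + 1) := by omega
          _ ≤ n * (m + 1) := Nat.mul_le_mul_right _ hn1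
      · have h3 : 2 ≤ n := by
          rw [hn, h1, one_mul]
          exact h2
        calc 3 ≤ 2 * (1 + 1) := by omega
          _ ≤ n * (m + 1) := Nat.mul_le_mul h3 (by omega)
    · by_cases hn2 : 2 ≤ n
      · exact Or.inr ⟨hn2, (hthr hn2).trans_le h2, h1⟩
      · have h3 : n = 1 := by omega
        refine Or.inl ⟨by omega, ?_⟩
        have h4 : (2 : ℝ) ≤ threshold (2 * c₀ + 1) η n := by
          rw [h3]
          unfold threshold
          rw [Nat.cast_one, Real.one_rpow]
          exact le_min (by norm_num) (by linarith)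
        have h5 : (2 : ℝ) ≤ m := h4.trans h2
        have h6 : 2 ≤ m := by exact_mod_cast h5
        rw [h3, one_mul]
        omega
  obtain ⟨E₀, hE₀, hdens, hrate, hall⟩ := hcases hcase
  refine ⟨E₀, hE₀, fun hc => hdens ?_, hrate, ?_⟩
  · rcases hc with hc | hc
    · exact Or.inl hc
    · by_cases h2 : r ≤ 2
      · exact Or.inl h2
      · refine Or.inr ?_
        have h3 := hthr (by omega)
        have h6 : (0 : ℝ) ≤ (r : ℝ) * (r - 1) := by
          have : (1 : ℝ) ≤ r := by exact_mod_cast hr
          exact mul_nonneg (by linarith) (by linarith)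
        have h7 : (r : ℝ) * (r - 1) *
            (2 * Pool.Agent.Results.MP_44a246_nt.BoundedDegreeHyperplanes.alpha n c₀ η + 1) ≤
            (r : ℝ) * (r - 1) * (threshold (2 * c₀ + 1) η n + 1) :=
          mul_le_mul_of_nonneg_left (by linarith) h6
        linarith
  intro A _ _ _ q F κ h1 h2 h3 h4 h5 u c 𝔮 Z e D hinj hP d R hR hR0 S' hS' t F' G' κ' ε' g1 g2 g3
    g4 M Λ ε hε
  obtain ⟨T, hT⟩ := hall A q F κ h1 h2 h3 h4 h5 u c 𝔮 Z e D (fun i => (hP i).1) hinj
    (fun i => (hP i).2.1) (fun i => (hP i).2.2.1) (fun i => (hP i).2.2.2.1)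
    (fun i => (hP i).2.2.2.2) d R hR hR0 S' hS' t F' G' κ' ε' g1 g2 g3 g4 M Λ ε hε
  refine ⟨T, fun K hK h Q hf hfr hQE hTQ => ?_⟩
  obtain ⟨c1, c2, c3, c4⟩ := hT K hK h Q hf (hfr.trans hn) hQE hTQ
  refine ⟨c1, c2, c3, ?_⟩
  intro L _ _ _ ψ hcomp S hS
  have c5 := c4 L ψ hcomp
  rw [Finset.sum_div] at c5
  have hL0 : (0 : ℝ) < finrank ℚ L := by exact_mod_cast finrank_pos
  have hzF : ∀ j, eval₂ (IntermediateField.inclusion h).toRingHom (coords Q.rep)
      (affine (F j)) ≠ 0 := by
    intro j h0
    apply c2 j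
    have hup : (Pool.Agent.D0H60.VDR.up (IntermediateField.inclusion h).toRingHom
      (F j)).IsHomogeneous (κ j) := (h1 j).map _
    have e1 := Pool.Agent.N752.CP.deh_eval hup c1
    have e2 := Pool.Agent.D0H60.VDR.eval_up (IntermediateField.inclusion h).toRingHom (F j)
      (fun i : Fin m => Q.rep i.succ / Q.rep 0)
    have e3 : eval₂ (IntermediateField.inclusion h).toRingHom
      (fun i : Fin m => Q.rep i.succ / Q.rep 0) (Pool.Agent.N752.CP.deh (F j)) = 0 := h0
    rw [e2, e3, mul_zero] at e1
    exact e1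
  have hfin := Pool.Agent.D0H60.VDR.hitD_finite (fun j => affine (F j)) c Z D
    (IntermediateField.inclusion h).toRingHom hzF ψ
  have e1 : ∀ S₁ : Finset ℕ, truncated h S₁ (fun j => affine (F j)) c Z D (coords Q.rep) ψ =
      (∑ w ∈ hfin.toFinset, if Outside S₁ w then Real.log (Ideal.absNorm w.asIdeal : ℝ) else 0) /
        finrank ℚ L := by
    intro S₁
    unfold truncated
    congr 1
    rw [finsum_eq_sum_of_support_subset (s := hfin.toFinset)]
    · refine Finset.sum_congr rfl fun w hw => ?_
      have hw' := (Set.Finite.mem_toFinset _).1 hw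
      exact if_congr ⟨fun h => h.1, fun h => ⟨h, hw'.1, hw'.2⟩⟩ rfl rfl
    · intro w hw
      rw [Finset.mem_coe, Set.Finite.mem_toFinset]
      by_contra hc
      exact hw (if_neg fun h => hc ⟨h.2.1, h.2.2⟩)
  have e2 : (∑ᶠ w : HeightOneSpectrum (𝓞 L), if Pool.Agent.D0H60.VDR.HitD
      (fun j => Pool.Agent.N752.CP.deh (F j)) c Z D (IntermediateField.inclusion h).toRingHom
      (fun i => Q.rep i.succ / Q.rep 0) ψ w then
        Real.log (Ideal.absNorm w.asIdeal : ℝ) else 0) =
      ∑ w ∈ hfin.toFinset, Real.log (Ideal.absNorm w.asIdeal : ℝ) := by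
    rw [finsum_eq_sum_of_support_subset (s := hfin.toFinset)]
    · refine Finset.sum_congr rfl fun w hw => ?_
      exact if_pos ((Set.Finite.mem_toFinset _).1 hw)
    · intro w hw
      rw [Finset.mem_coe, Set.Finite.mem_toFinset]
      by_contra hc
      exact hw (if_neg hc)
  have h3 := Pool.Agent.N752.HY.Ext.sum_above (L := L) S hS
    (hfin.toFinset.filter fun v => ¬ Outside S v) fun v hv => (Finset.mem_filter.1 hv).2
  rw [Finset.sum_filter] at h3
  have h8 : (∑ w ∈ hfin.toFinset, Real.log (Ideal.absNorm w.asIdeal : ℝ)) / finrank ℚ L ≤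
      (∑ w ∈ hfin.toFinset, if Outside S w then Real.log (Ideal.absNorm w.asIdeal : ℝ) else 0) /
        finrank ℚ L + ∑ p ∈ S, Real.log (p : ℝ) := by
    rw [div_add' _ _ _ hL0.ne']
    refine div_le_div_of_nonneg_right ?_ hL0.le
    rw [mul_comm (∑ p ∈ S, Real.log (p : ℝ))]
    refine le_trans ?_ (add_le_add (le_refl _) h3)
    rw [← Finset.sum_add_distrib]
    refine Finset.sum_le_sum fun v _ => ?_
    by_cases h : Outside S v
    · rw [if_pos h, if_neg (not_not.2 h), add_zero]
    · rw [if_neg h, if_pos h, zero_add]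
  have e3 : Pool.Agent.N752.HY.ldisc L = logDisc L := rfl
  have e4 : Pool.Agent.N752.HY.ldisc K = logDisc K := rfl
  rw [e2, e3, e4] at c5
  rw [e1]
  refine le_trans (le_of_eq rfl) (c5.trans ?_)
  linarith

end Pool.Agent.Results.MP_9b9442_nt.CoversOverNumberFields
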