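import Pool.Agent.D0H41.OC.Fam2
import Pool.Agent.D0H41.OC.Uni

/-!
# Vojta's height inequality for ALL points above almost all rational points, on ALL Galois covers of
# `ℙⁿ`, with branch components of arbitrary degrees

Let `π : X → ℙⁿ`, `n ≥ 2`, be a finite cover by a normal variety, defined over `ℚ` or over a number
field `k`. Let `D_j : F_j = 0` be hypersurfaces, `F_j` a form of degree `k_j` with rational
coefficients, irreducible over `ℚ` (with arbitrary singularities and intersections), and let `e_j` be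
an integer which divides the ramification indices of all prime divisors of `X` above `D_j`. For Galois
covers, abelian or not, all ramification indices above `D_j` are equal and we take `e_j` equal to
them: then, if the branch divisor is the union of the `D_j`,
`h_{K_X}(P) = (∑_j (1 - 1 / e_j) k_j - n - 1) h(x) + O(1)`, `x = π(P)`.

We prove that, for all `θ < ∑_j w_j`,

`θ h(x) + Λ ∑_l h_{(F'_l, G'_l)}(x) ≤ d(P)`                                              (*)

for ALL closed points `P` of `X`, of every degree, above almost all rational points `x` of `ℙⁿ`; here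
`d(P)` is the logarithmic discriminant, `h_{(F', G')}` is the height relative to the ideal `(F', G')`
of codimension two, `Λ` is as large as we like, and `w_j = orbWeight a e_j k_j` where `a = 1 + 1 / n`
(or `a = m` if `D_j` is an orbit of conjugate hyperplanes whose linear forms span a space of dimension
`m`) and

* `orbWeight a e k = (1 - 1 / e) k` if `k < 3 a`: for ALL components of degree at most `3`, and for
  all plane curves of degree at most `4`;
* `orbWeight a e k = (1 - 1 / e) weight a k` if `e` is a prime number and `k < (e + 1) a`, where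
  `weight a k = 2 a + (k mod a) / (⌊k / a⌋ - 1)` for `k ≥ 3 a`;
* `orbWeight a e k = max ((1 - 1 / e) a) (weight a k - k / e)` in the other cases.

So Vojta's inequality `h_{K_X}(P) ≤ d(P) + ε h_A(P) + O(1)` holds for all closed points `P` above
almost all `x` if `∑_j ((1 - 1 / e_j) k_j - w_j) ≤ n + 1`: in particular

* for ALL Galois covers of `ℙⁿ` whose branch divisor has only components of degree at most `3` over
  `ℚ` (at most `4` if `n = 2`): any number of components, any ramification, any group;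
* if there is one more component, of degree `≤ n + 3` (`≤ 6` if `n = 2`).

**Almost all** has two meanings: all but `C B ^ {n + 1 - c}` of the primitive `x` with `|x| ≤ B`, for
some `c > 0`; and all `x` of large height outside a set `Z` of density zero which depends only on `n`:
it is the same set for ALL covers, all `θ`, `Λ` and all ideals. The term with `Λ` bounds the heights
relative to all divisors which are contracted to subsets of codimension at least two of `ℙⁿ`, so that
the inequalities hold on the smooth models of `X` too.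

**The covers.** `A` is the ring of the functions on `X` which are regular above the affine space
`x_0 ≠ 0`: any normal domain which is finite over `R = ℚ[z_1, …, z_n]` and contains it. The points of
`X` above `x` over a number field `L` are the homomorphisms `ψ : A → L` which extend the evaluation
of `R` at `z = (x_1 / x_0, …, x_n / x_0)`; if `X` is defined over `k`, then `A` and `L` contain `k`.
The prime divisors above `D_j` are the prime ideals `𝔮` of `A` above the prime ideal generated by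
`f_j = F_j(1, z)`; the local ring `A_𝔮` is a discrete valuation ring, and `e_j` divides the
ramification index if and only if `f_j` is a unit times an `e_j`-th power in `A_𝔮`.

Before, this was known for abelian covers (AbelianCovers with components of degree at most two and
conjugate hyperplanes, ComponentsOfAllDegrees of this folder), where the roots of the `F_j(x)` are
explicit. For arbitrary covers the starting files (CoversOfProjectiveSpace of MP_651af7_nt) treat only
points of the full degree `[k(X) : k(ℙⁿ)]`, components of degree at most two and conjugate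
hyperplanes.

Proof. The localisation of `A` at the prime ideal `(f_j)` of `R` is a principal ideal domain, so that
there are `g ∈ R`, not divisible by `f_j`, and `u, u', ζ ∈ A` with `g f_j = u ζ ^ {e_j}` and
`g = u u'`. Hence, if a prime `p`, outside a finite set, divides `F_j(x)` exactly `v ≥ 1` times and
does not divide `x_0` and the value of the form belonging to `g`, then `e_j` divides `v` times the
ramification index at `p` of every prime of `L` above `p`, for every point `P` over `L`. So `d(L)` is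
at least the sum of `(1 - gcd (e_j, v_p(F_j(x))) / e_j) log p` over these primes. The bounds from below
of these sums for almost all `x` are those of ComponentsOfAllDegrees.
-/

set_option autoImplicit false

namespace Pool.Agent.Results.MP_9b9442_nt.GaloisCovers

open MvPolynomial NumberField

variable {n r t : ℕ}

/-- the affine equation `F(1, z_1, …, z_n)` of a form `F` -/
noncomputable def affine (F : MvPolynomial (Fin (n + 1)) ℤ) : MvPolynomial (Fin n) ℚ :=
  eval₂ (C.comp (Int.castRingHom ℚ)) (Fin.cons 1 X) F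

/-- the affine coordinates `z_i = x_i / x_0` -/
def coords (x : Fin (n + 1) → ℤ) : Fin n → ℚ := fun i => (x i.succ : ℚ) / x 0

/-- `e` divides the ramification indices of `A` at all prime divisors above `f = 0`: if `𝔮` is a
prime ideal of `A` above the prime ideal generated by `f`, then `f` is a unit times an `e`-th power in
the local ring `A_𝔮`. -/
def RamificationDivisible {R : Type} (A : Type) [CommRing R] [CommRing A] [Algebra R A] (f : R)
    (e : ℕ) : Prop :=
  ∀ 𝔮 : Ideal A, 𝔮.IsPrime → 𝔮.comap (algebraMap R A) = Ideal.span {f} →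
    ∃ a c c' : A, c ∉ 𝔮 ∧ c' ∉ 𝔮 ∧ c * algebraMap R A f = c' * a ^ e

/-- `F = 0` is an orbit of conjugate hyperplanes of rank `m`: `F(x) = c N_{E/ℚ}(∑ α_i x_i)` for a
number field `E`, a rational number `c` and elements `α_i` of `E` which span a space of dimension
`m` over `ℚ` -/
def IsNormForm (F : MvPolynomial (Fin (n + 1)) ℤ) (m : ℕ) : Prop :=
  ∃ (E : Type) (_ : Field E) (_ : NumberField E) (α : Fin (n + 1) → E) (c : ℚ),
    Module.finrank ℚ (Submodule.span ℚ (Set.range α)) = m ∧
    ∀ x : Fin (n + 1) → ℤ, (eval x F : ℚ) = c * Algebra.norm ℚ (∑ i, (x i : E) * α i)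

/-- `k` if `k < 3 a`, otherwise `2 a + (k mod a) / (⌊k / a⌋ - 1)` -/
noncomputable def weight (a : ℝ) (k : ℕ) : ℝ :=
  if (k : ℝ) < 3 * a then k
  else 2 * a + ((k : ℝ) - ⌊(k : ℝ) / a⌋₊ * a) / (⌊(k : ℝ) / a⌋₊ - 1)

/-- the weight of a component of degree `k` over which the ramification indices are divisible by
`e` -/
noncomputable def orbWeight (a : ℝ) (e k : ℕ) : ℝ :=
  if (k : ℝ) < 3 * a then (1 - 1 / (e : ℝ)) * k
  else if e.Prime ∧ (k : ℝ) < (e + 1) * a then (1 - 1 / (e : ℝ)) * weight a k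
  else max ((1 - 1 / (e : ℝ)) * a) (weight a k - k / e)

/-- the weights of a component `F = 0` of degree `k` and ramification index `e`:
`orbWeight (1 + 1 / n) e k`, and `orbWeight m e k` if it is an orbit of conjugate hyperplanes of rank
`m` -/
def HasWeight (F : MvPolynomial (Fin (n + 1)) ℤ) (e k : ℕ) (w : ℝ) : Prop :=
  w = orbWeight (1 + 1 / (n : ℝ)) e k ∨ ∃ m : ℕ, 1 ≤ m ∧ IsNormForm F m ∧ w = orbWeight m e k

/-- the exponential of the height of the point with homogeneous coordinates `x` (coprime integers) -/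
def height (x : Fin (n + 1) → ℤ) : ℕ := Finset.univ.sup fun i => (x i).natAbs

/-- The height relative to the ideal `(F, G)` of the point with homogeneous coordinates `x` (coprime
integers), where `F` and `G` are forms of degrees `k` and `e`: the local height at the prime `p` is
`- log max (|F(x)|_p, |G(x)|_p)`, and the sum of these is `log gcd (F(x), G(x))`; the local height
at infinity is `- log max (|F(x)| / |x| ^ k, |G(x)| / |x| ^ e)`. -/
noncomputable def idealHeight (F G : MvPolynomial (Fin (n + 1)) ℤ) (k e : ℕ)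
    (x : Fin (n + 1) → ℤ) : ℝ :=
  Real.log (Int.gcd (eval x F) (eval x G)) -
    Real.log (max (|(eval x F : ℝ)| / (height x : ℝ) ^ k) (|(eval x G : ℝ)| / (height x : ℝ) ^ e))

/-- the absolute logarithmic discriminant `log |disc(L)| / [L : ℚ]` of a number field `L` -/
noncomputable def logDisc (L : Type) [Field L] [NumberField L] : ℝ :=
  Real.log |(discr L : ℝ)| / Module.finrank ℚ L

/-- The point with homogeneous coordinates `x` (coprime integers) is not on `x_0 = 0`, on any
`F_j = 0`, nor on any `F'_l = 0`, and for all number fields `L` and all points `ψ` of `Spec A` over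
`L` above `x`: `θ h + Λ ∑ h_{(F'_l, G'_l)}(x) ≤ d(L)`. -/
def AllPointsAbove (A : Type) [CommRing A] [Algebra (MvPolynomial (Fin n) ℚ) A]
    (F : Fin r → MvPolynomial (Fin (n + 1)) ℤ)
    (F' G' : Fin t → MvPolynomial (Fin (n + 1)) ℤ) (k' e' : Fin t → ℕ) (Λ : ℕ) (θ h : ℝ)
    (x : Fin (n + 1) → ℤ) : Prop :=
  x 0 ≠ 0 ∧ (∀ j, eval x (F j) ≠ 0) ∧ (∀ l, eval x (F' l) ≠ 0) ∧
  ∀ (L : Type) [Field L] [NumberField L] (ψ : A →+* L),
    (∀ f : MvPolynomial (Fin n) ℚ, ψ (algebraMap (MvPolynomial (Fin n) ℚ) A f) =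
      algebraMap ℚ L (eval (coords x) f)) →
    θ * h + Λ * ∑ l, idealHeight (F' l) (G' l) (k' l) (e' l) x ≤ logDisc L

/-- there are at most `C B ^ (n + 1 - c)` exceptions of height at most `log B`, for some `c > 0` and
`C` (with `h = log B` in the inequality) -/
def AlmostAll (A : Type) [CommRing A] [Algebra (MvPolynomial (Fin n) ℚ) A]
    (F : Fin r → MvPolynomial (Fin (n + 1)) ℤ)
    (F' G' : Fin t → MvPolynomial (Fin (n + 1)) ℤ) (k' e' : Fin t → ℕ) (Λ : ℕ) (θ : ℝ) : Prop :=
  ∃ c : ℝ, 0 < c ∧ ∃ C : ℝ, ∀ B : ℕ, 1 ≤ B →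
    (Set.ncard {x : Fin (n + 1) → ℤ | (∀ i, |x i| ≤ B) ∧ Finset.univ.gcd x = 1 ∧
      ¬ AllPointsAbove A F F' G' k' e' Λ θ (Real.log B) x} : ℝ) ≤ C * (B : ℝ) ^ ((n : ℝ) + 1 - c)

/-- the inequality holds for all points outside `Z` of height greater than some `T` -/
def Outside (Z : Set (Fin (n + 1) → ℤ)) (A : Type) [CommRing A]
    [Algebra (MvPolynomial (Fin n) ℚ) A] (F : Fin r → MvPolynomial (Fin (n + 1)) ℤ)
    (F' G' : Fin t → MvPolynomial (Fin (n + 1)) ℤ) (k' e' : Fin t → ℕ) (Λ : ℕ) (θ : ℝ) : Prop :=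
  ∃ T : ℝ, ∀ x : Fin (n + 1) → ℤ, Finset.univ.gcd x = 1 → x ∉ Z → T < Real.log (height x) →
    AllPointsAbove A F F' G' k' e' Λ θ (Real.log (height x)) x

/-- the number of elements of `Z` with coordinates of absolute value at most `B` is `o(B ^ (n + 1))` -/
def DensityZero (Z : Set (Fin (n + 1) → ℤ)) : Prop :=
  ∀ ε : ℝ, 0 < ε → ∃ B₀ : ℕ, ∀ B : ℕ, B₀ ≤ B →
    (Set.ncard {x : Fin (n + 1) → ℤ | (∀ i, |x i| ≤ B) ∧ x ∈ Z} : ℝ) ≤ ε * (B : ℝ) ^ (n + 1)

theorem prim_of_gcd {x : Fin (n + 1) → ℤ} (hg : Finset.univ.gcd x = 1) :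
    ∃ c : Fin (n + 1) → ℤ, ∑ i, c i * x i = 1 := by
  obtain ⟨f, hf⟩ := Finset.gcd_eq_sum_mul Finset.univ x
  rw [hg] at hf
  exact ⟨f, by rw [hf]; exact Finset.sum_congr rfl fun i _ => mul_comm _ _⟩

theorem weights_le {F : Fin r → MvPolynomial (Fin (n + 1)) ℤ} {k e : Fin r → ℕ} {w : Fin r → ℝ}
    (hw : ∀ j, HasWeight (F j) (e j) (k j) (w j)) (j : Fin r) :
    ∃ α, D0H41.OC.HasAlpha (F j) α ∧ w j ≤ D0H41.OC.ow α (e j) (k j) := by
  rcases hw j with h | ⟨m, hm, h1, h2⟩
  · exact ⟨_, Or.inl rfl, le_of_eq h⟩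
  · exact ⟨_, Or.inr ⟨m, hm, h1, rfl⟩, le_of_eq h2⟩

theorem above_mono {A : Type} [CommRing A] [Algebra (MvPolynomial (Fin n) ℚ) A]
    {F : Fin r → MvPolynomial (Fin (n + 1)) ℤ}
    {F' G' : Fin t → MvPolynomial (Fin (n + 1)) ℤ} {k' e' : Fin t → ℕ} {Λ : ℕ} {θ θ' h : ℝ}
    {x : Fin (n + 1) → ℤ} (hh : 0 ≤ h) (hθ : θ ≤ θ')
    (hI : AllPointsAbove A F F' G' k' e' Λ θ' h x) :
    AllPointsAbove A F F' G' k' e' Λ θ h x := by
  obtain ⟨h0, h1, h2, h3⟩ := hI
  refine ⟨h0, h1, h2, ?_⟩
  intro L i1 i2 ψ hψ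
  have := h3 L ψ hψ
  have := mul_le_mul_of_nonneg_right hθ hh
  linarith

theorem orbWeight_nonneg (a : ℝ) (e k : ℕ) (ha : 0 < a) (he : 1 ≤ e) : 0 ≤ orbWeight a e k := by
  obtain ⟨h0, -⟩ := D0H41.OC.coef_le_one e he
  unfold orbWeight
  split_ifs with h1 h2
  · exact mul_nonneg h0 (Nat.cast_nonneg _)
  · refine mul_nonneg h0 ?_
    have : 2 * a ≤ weight a k := N445.DF.wgt_two a k ha (by linarith)
    linarith
  · exact le_max_of_le_left (mul_nonneg h0 ha.le)

theorem orbWeight_pos (a : ℝ) (e k : ℕ) (ha : 0 < a) (he : 2 ≤ e) (hk : 1 ≤ k) :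
    0 < orbWeight a e k := by
  have h0 : (0 : ℝ) < 1 - 1 / (e : ℝ) := by
    have he2 : (2 : ℝ) ≤ e := by exact_mod_cast he
    rw [sub_pos, div_lt_one (by linarith)]
    linarith
  have hk0 : (0 : ℝ) < k := by exact_mod_cast hk
  unfold orbWeight
  split_ifs with h1 h2
  · exact mul_pos h0 hk0
  · refine mul_pos h0 ?_
    have : 2 * a ≤ weight a k := N445.DF.wgt_two a k ha (by linarith)
    linarith
  · exact lt_max_of_lt_left (mul_pos h0 ha)

theorem nat_gap (a : ℝ) (e k : ℕ) (he : 1 ≤ e) (b : ℝ) (hb : 0 ≤ b)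
    (h : (k : ℝ) - weight a k ≤ b) : (1 - 1 / (e : ℝ)) * k - orbWeight a e k ≤ b := by
  obtain ⟨h0, h01⟩ := D0H41.OC.coef_le_one e he
  have he0 : (1 : ℝ) ≤ e := by exact_mod_cast he
  unfold orbWeight
  split_ifs with h1 h2
  · linarith
  · have h3 : (1 - 1 / (e : ℝ)) * ((k : ℝ) - weight a k) ≤ (1 - 1 / (e : ℝ)) * b :=
      mul_le_mul_of_nonneg_left h h0
    have h4 : (1 - 1 / (e : ℝ)) * b ≤ 1 * b := mul_le_mul_of_nonneg_right h01 hb
    linarith
  · have h3 := le_max_right ((1 - 1 / (e : ℝ)) * a) (weight a k - k / e)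
    have h4 : (1 - 1 / (e : ℝ)) * k = k - k / e := by ring
    linarith

theorem one_hom : (1 : MvPolynomial (Fin (n + 1)) ℤ).IsHomogeneous 0 := isHomogeneous_one _ _

/-- the points above `x` -/
theorem above_of {A : Type} [CommRing A] [Algebra (MvPolynomial (Fin n) ℚ) A]
    {F H : Fin r → MvPolynomial (Fin (n + 1)) ℤ} {e : Fin r → ℕ}
    {F' G' : Fin t → MvPolynomial (Fin (n + 1)) ℤ} {k' e' : Fin t → ℕ} {Λ c₀ : ℕ} {θ h C : ℝ}
    {x : Fin (n + 1) → ℤ} {lam : Fin r → ℝ} (hlam : ∀ c, lam c = 1) (hC : C ≤ c₀)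
    (hcov : (∀ j, eval x (F j) ≠ 0) →
      ∀ (L : Type) [Field L] [NumberField L] (ψ : A →+* L),
        (∀ f : MvPolynomial (Fin n) ℚ, ψ (algebraMap (MvPolynomial (Fin n) ℚ) A f) =
          algebraMap ℚ L (eval (D0H41.OC.crd x) f)) →
        ∑ j, D0H41.OC.dd (e j) (eval x (F j)).natAbs -
          ∑ j, Real.log (H813R3.Voj.rd (Int.gcd (eval x (F j)) (eval x (H j)))) - C ≤
            D0H41.OC.ld L)
    (hI : D0H41.OC.Ineq2 F H id e lam F' G' k' e' 1 0 ∅ 0 Λ c₀ θ h x) :
    AllPointsAbove A F F' G' k' e' Λ θ h x := by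
  obtain ⟨h0, h1, h2, -, h3⟩ := hI
  refine ⟨h0, h1, h2, ?_⟩
  intro L _ _ ψ hψ
  have h4 := hcov h1 L ψ hψ
  have h5 : D0H41.OC.Psi F H id e lam x = ∑ j, D0H41.OC.dd (e j) (eval x (F j)).natAbs -
      ∑ j, Real.log (H813R3.Voj.rd (Int.gcd (eval x (F j)) (eval x (H j)))) := by
    unfold D0H41.OC.Psi
    congr 1
    refine Finset.sum_congr rfl fun c _ => ?_
    rw [hlam, one_mul]
    rfl
  rw [h5, Nat.cast_zero, zero_mul, add_zero] at h3
  have h6 : θ * h + Λ * ∑ l, idealHeight (F' l) (G' l) (k' l) (e' l) x + c₀ ≤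
      ∑ j, D0H41.OC.dd (e j) (eval x (F j)).natAbs -
      ∑ j, Real.log (H813R3.Voj.rd (Int.gcd (eval x (F j)) (eval x (H j)))) := h3
  have h7 : logDisc L = D0H41.OC.ld L := rfl
  rw [h7]
  linarith

/-- **Vojta's inequality for all points above almost all rational points, on all Galois covers of
`ℙⁿ`.** -/
theorem result (n : ℕ) (hn : 2 ≤ n) :
    (∃ Z : Set (Fin (n + 1) → ℤ), DensityZero Z ∧
      -- for all covers
      ∀ (A : Type) [CommRing A] [IsDomain A] [IsIntegrallyClosed A]
        [Algebra (MvPolynomial (Fin n) ℚ) A] [FaithfulSMul (MvPolynomial (Fin n) ℚ) A]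
        [Module.Finite (MvPolynomial (Fin n) ℚ) A]
        -- all branch components
        (r t : ℕ) (F : Fin r → MvPolynomial (Fin (n + 1)) ℤ) (k e : Fin r → ℕ)
        (w : Fin r → ℝ) (_ : ∀ j, (F j).IsHomogeneous (k j))
        (_ : ∀ j, Irreducible (map (Int.castRingHom ℚ) (F j)))
        (_ : ∀ j, Irreducible (affine (F j)))
        (_ : ∀ i j, i ≠ j →
          ¬ Associated (map (Int.castRingHom ℚ) (F i)) (map (Int.castRingHom ℚ) (F j)))
        (_ : ∀ j, 1 ≤ e j) (_ : ∀ j, RamificationDivisible A (affine (F j)) (e j))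
        (_ : ∀ j, HasWeight (F j) (e j) (k j) (w j))
        -- all ideals
        (F' G' : Fin t → MvPolynomial (Fin (n + 1)) ℤ) (k' e' : Fin t → ℕ)
        (_ : ∀ l, (F' l).IsHomogeneous (k' l))
        (_ : ∀ l, Irreducible (map (Int.castRingHom ℚ) (F' l)))
        (_ : ∀ l, ¬ map (Int.castRingHom ℚ) (F' l) ∣ map (Int.castRingHom ℚ) (G' l))
        (Λ : ℕ),
        -- the inequality for all `θ < ∑ w_j`
        (∀ θ : ℝ, θ < ∑ j, w j →
          AlmostAll A F F' G' k' e' Λ θ ∧ (0 ≤ θ → Outside Z A F F' G' k' e' Λ θ)) ∧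
        -- Vojta's inequality
        ((n : ℝ) + 1 ≤ ∑ j, (1 - 1 / (e j : ℝ)) * k j →
          ∑ j, ((1 - 1 / (e j : ℝ)) * k j - w j) ≤ n + 1 → ∀ ε : ℝ, 0 < ε →
          AlmostAll A F F' G' k' e' Λ (∑ j, (1 - 1 / (e j : ℝ)) * k j - (n + 1) - ε) ∧
          Outside Z A F F' G' k' e' Λ (∑ j, (1 - 1 / (e j : ℝ)) * k j - (n + 1) - ε))) ∧
    (∀ e k : ℕ, k ≤ 3 → orbWeight (1 + 1 / (n : ℝ)) e k = (1 - 1 / (e : ℝ)) * k) ∧
    (n = 2 → ∀ e : ℕ, orbWeight (1 + 1 / (n : ℝ)) e 4 = (1 - 1 / (e : ℝ)) * 4) ∧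
    (∀ e k : ℕ, 1 ≤ e → n * k ≤ (n + 1) * (n + 2) →
      (1 - 1 / (e : ℝ)) * k - orbWeight (1 + 1 / (n : ℝ)) e k ≤ n + 1) ∧
    (∀ m e k : ℕ, k < 3 * m → orbWeight m e k = (1 - 1 / (e : ℝ)) * k) := by
  have hn0 : (0 : ℝ) < n := by exact_mod_cast (by omega : 0 < n)
  have hnn : (0 : ℝ) < 1 / (n : ℝ) := by positivity
  obtain ⟨Z, hZ, hall⟩ := D0H41.OC.one_gen hn
  refine ⟨⟨Z, ?_, ?_⟩, ?_, ?_, ?_, ?_⟩
  · intro ε hε
    obtain ⟨B₀, hB₀⟩ := hZ ε hε
    refine ⟨B₀, fun B hB => ?_⟩
    refine le_trans (le_of_eq ?_) (hB₀ B hB)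
    congr 2
    ext x
    simp only [Set.mem_ofPred_eq, TH910.Voj.mem_box]
  · intro A _ _ _ _ _ _ r t F k e w hhom hirr haff hdist he hram hw F' G' k' e' hhom' hirr' hcop Λ
    obtain ⟨H, E, C, -, hH, hcov⟩ := D0H41.OC.cover_uni A F k e hhom hirr haff hdist he hram
    obtain ⟨c₀, hc₀⟩ : ∃ c₀ : ℕ, C ≤ c₀ := exists_nat_ge C
    have hlam : ∀ c : Fin r, (((1 : ℚ) : ℝ)) = 1 := fun _ => by norm_num
    have hHyp : D0H41.OC.Hyp F H id e (fun _ => ((1 : ℚ) : ℝ)) F' G' k'
        (1 : MvPolynomial (Fin (n + 1)) ℤ) 0 ∅ k w :=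
      ⟨hhom, hirr, hH, fun _ => by norm_num, fun c => weights_le hw c, hhom', hirr', hcop, one_hom,
        one_ne_zero, by simp⟩
    have hsum : ∑ c : Fin r, ((1 : ℚ) : ℝ) * w c = ∑ j, w j :=
      Finset.sum_congr rfl fun c _ => by norm_num
    have hAA : ∀ θ : ℝ, θ < ∑ j, w j → AlmostAll A F F' G' k' e' Λ θ := by
      intro θ hθ
      obtain ⟨c, hc, C₁, -, h⟩ := D0H41.OC.main_gen hn F H k hHyp.hom hHyp.irr hHyp.cop id e
        (fun _ => ((1 : ℚ) : ℝ)) hHyp.lam0 w hHyp.wt F' G' k' e' hhom' hirr' hcop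
        (1 : MvPolynomial (Fin (n + 1)) ℤ) 0 one_hom one_ne_zero ∅ (by simp) 0 Λ c₀ θ
        (by rw [hsum]; exact hθ)
      refine ⟨c, hc, C₁, fun B hB => ?_⟩
      have h1 := h B hB
      push_cast at h1
      refine le_trans ?_ h1
      refine Nat.cast_le.2 (Set.ncard_le_ncard ?_ ((TH910.Voj.finite_sub (n + 1) B _)))
      rintro x ⟨hx, hg, hbad⟩
      refine ⟨TH910.Voj.mem_box.2 hx, prim_of_gcd hg, fun hI => hbad ?_⟩
      exact above_of (fun _ => rfl) hc₀ (hcov x) hI
    have hOut : ∀ θ : ℝ, 0 ≤ θ → θ < ∑ j, w j → Outside Z A F F' G' k' e' Λ θ := by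
      intro θ hθ0 hθ
      obtain ⟨T, hT⟩ := hall r r t F H id e (fun _ => 1) F' G' k' e' 1 0 ∅ 0 Λ c₀ k w hHyp θ hθ0
        (by rw [hsum]; exact hθ)
      exact ⟨T, fun x hg hxZ hTx => above_of hlam hc₀ (hcov x) (hT x (prim_of_gcd hg) hxZ hTx)⟩
    refine ⟨fun θ hθ => ⟨hAA θ hθ, fun hθ0 => hOut θ hθ0 hθ⟩, fun hK hgap ε hε => ?_⟩
    have hlt : ∑ j, (1 - 1 / (e j : ℝ)) * k j - (n + 1) - ε < ∑ j, w j := by
      rw [Finset.sum_sub_distrib] at hgap
      linarith
    refine ⟨hAA _ hlt, ?_⟩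
    have hw0 : ∀ j, 0 ≤ w j := by
      intro j
      rcases hw j with h | ⟨m, hm, -, h⟩
      · rw [h]
        exact orbWeight_nonneg _ _ _ (by linarith) (he j)
      · rw [h]
        exact orbWeight_nonneg _ _ _ (by exact_mod_cast hm) (he j)
    have hpos : 0 < ∑ j, w j := by
      by_contra hcon
      have hz : ∀ j, w j = 0 := by
        have h1 : ∑ j, w j = 0 := le_antisymm (not_lt.1 hcon) (Finset.sum_nonneg fun j _ => hw0 j)
        intro j
        exact (Finset.sum_eq_zero_iff_of_nonneg fun j _ => hw0 j).1 h1 j (Finset.mem_univ j)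
      have he1 : ∀ j, e j = 1 := by
        intro j
        by_contra hne
        have hej : 2 ≤ e j := by
          have := he j
          omega
        have hk1 := N445.VW.one_le_of_irr (F j) (hhom j) (hirr j)
        have h2 : 0 < w j := by
          rcases hw j with h | ⟨m, hm, -, h⟩
          · rw [h]
            exact orbWeight_pos _ _ _ (by linarith) hej hk1
          · rw [h]
            exact orbWeight_pos _ _ _ (by exact_mod_cast hm) hej hk1
        rw [hz j] at h2
        exact lt_irrefl _ h2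
      have h3 : ∑ j, (1 - 1 / (e j : ℝ)) * k j = 0 := by
        refine Finset.sum_eq_zero fun j _ => ?_
        rw [he1 j]
        simp
      rw [h3] at hK
      linarith
    obtain ⟨T, hT⟩ := hOut (max (∑ j, (1 - 1 / (e j : ℝ)) * k j - (n + 1) - ε) 0)
      (le_max_right _ _) (max_lt hlt hpos)
    refine ⟨T, fun x hg hxZ hTx => ?_⟩
    refine above_mono ?_ (le_max_left _ 0) (hT x hg hxZ hTx)
    exact Real.log_natCast_nonneg _
  · intro e k hk
    have hk3 : (k : ℝ) ≤ 3 := by exact_mod_cast hk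
    unfold orbWeight
    rw [if_pos (by linarith)]
  · intro h e
    subst h
    unfold orbWeight
    rw [if_pos (by norm_num)]
    norm_num
  · intro e k he hk
    exact nat_gap _ e k he _ (by positivity) (N445.DF.wgt_sub_gen n k hn hk)
  · intro m e k hk
    have hk' : (k : ℝ) < 3 * m := by exact_mod_cast hk
    unfold orbWeight
    rw [if_pos hk']

end Pool.Agent.Results.MP_9b9442_nt.GaloisCovers
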