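import Pool.Agent.D0H41.OC.Cov3
import Pool.Agent.D0H48.Mv.Cov
import Pool.Agent.D0H48.Mv.Dir

/-!
# Vojta's inequality for all covers of `ℙⁿ`, above the good rational approximations of almost every
# real (or `p`-adic) point

Let `n ≥ 2`. For a real point `ξ = (ξ_1, …, ξ_n)` we consider the rational points `x` of `ℙⁿ` with

`|ξ_i - x_i / x_0| ≤ height(x) ^ (-(n + 1 - δ) / n)` for all `i`.                        (1)

By Dirichlet's theorem there are infinitely many of them for every `δ > 0` if `ξ` is irrational, and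
for almost all `ξ` the exponent `(n + 1) / n` cannot be improved. We prove that for almost every `ξ`
Vojta's conjectured height inequality holds on ALL covers `π : X → ℙⁿ` (over `ℚ`, or over a number
field), at all points of full degree above all but finitely many of the `x` with (1): for all reduced
divisors `D ⊆ X` and for the components of the branch divisor and of the image of `D` of arbitrary
degrees, with the weights of AllCoversAllDivisors (of MP_651af7_nt): so

`h_{K_X + D}(P) ≤ d(P) + N_S^{(1)}(D, P) + ∑_{p ∈ S} log p + ε h(x)`                        (2)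

holds for all `S` and all points `P ∉ D` of degree `N = deg X` above all but finitely many `x` with
(1), where `δ` depends on `X`, `D` and `ε`, if the sum of the deficits of the weights is at most
`n + 1`: for example if the components of the branch divisor and of the image of `D` have degree at
most `3` (at most `4` if `n = 2`), with any number of components, any ramification and any
singularities; or with one more component of degree at most `n + 3` (at most `6` if `n = 2`). We may
add to the left-hand side of (2) any multiple of the proximity function of any hypersurface of `ℙⁿ`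
(for any finite set `S'` of primes and the infinite place), and any multiple of the heights relative
to ideals of codimension two, so that the inequality holds on all smooth models of `X` as well.

In AllCoversAllDivisors the rational points are all those outside a thin set `Z` of density zero. But
the good approximations of a real point `ξ` are a very sparse set (of about `log B` points of height
at most `B`), which could be contained in `Z`; here we prove that for almost every `ξ` only finitely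
many of them are exceptional. The exceptional set of `ξ` is the same for all covers, all divisors,
all `ε`, ….

The first part of the theorem is more precise and more general: let `T` be any metric space, `ι` any
map from the rational points to `T`, and `s > 0`. Outside a countable union of sets of Hausdorff
dimension LESS than `s` of `T`, the inequality holds for the points above all but finitely many of
the rational points `x` whose distance `dist(y, ι(x))` is at most `height(x) ^ (-(n + 1 - δ) / s)`.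
Examples:

* `T = ℝⁿ`, `s < n`: the set of the `ξ` with infinitely many `x` such that
  `|ξ - x| ≤ height(x) ^ (-(n + 1) / s)` has dimension `s` (Jarník, Besicovitch). In this set the
  exceptional `ξ` are a countable union of sets of smaller dimension.
* `T = ℚ_pⁿ`, `s = n`; `T = ℝⁿ` with `ι(x)` the coordinates in any other affine chart; projective
  spaces and their images under maps to other spaces, for example curves, where only the
  approximations of the points of a curve are considered.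
* `T` is the product of the spaces for several places.

Proof. For a given cover and given divisors, all but `C B ^ (n + 1 - c)` of the `x` of height at most
`B` satisfy the inequality; the data of the inequalities for the rational points (not the covers) form
a countable set. The exceptional sets of power-saving size give the bound for the dimension by the
natural covers, of the limsup set, by the balls of radius `height(x) ^ (-(n + 1 - δ) / s)`.
-/

set_option autoImplicit false

namespace Pool.Agent.Results.MP_9b9442_nt.MetricCovers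

open MvPolynomial NumberField IsDedekindDomain

variable {n r q t : ℕ}

/-- the affine equation `F(1, z_1, …, z_n)` of a form `F` -/
noncomputable def affine (F : MvPolynomial (Fin (n + 1)) ℤ) : MvPolynomial (Fin n) ℚ :=
  eval₂ (C.comp (Int.castRingHom ℚ)) (Fin.cons 1 X) F

/-- the affine coordinates `z_i = x_i / x_0` -/
def coords (x : Fin (n + 1) → ℤ) : Fin n → ℚ := fun i => (x i.succ : ℚ) / x 0

/-- the ramification index of the prime ideal `𝔮` of `A` above the prime ideal generated by `f` is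
`e`: there is a generator `π` of the maximal ideal of the local ring `A_𝔮`, and `f` is a unit of
`A_𝔮` times `π ^ e` -/
def RamificationIndex {R A : Type} [CommRing R] [CommRing A] [Algebra R A] (f : R) (𝔮 : Ideal A)
    (e : ℕ) : Prop :=
  ∃ π ∈ 𝔮, (∀ y ∈ 𝔮, ∃ s, s ∉ 𝔮 ∧ ∃ b, s * y = b * π) ∧
    ∃ s s', s ∉ 𝔮 ∧ s' ∉ 𝔮 ∧ s * algebraMap R A f = s' * π ^ e

/-- the residue degree of the prime ideal `𝔮` of `A` above the prime ideal generated by `f` is at
most `d`: there are `a_1, …, a_d ∈ A` and `g ∈ R` not divisible by `f` such that every `b ∈ A`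
satisfies `g b ≡ ∑_l ρ_l a_l` modulo `𝔮` for some `ρ_l ∈ R` -/
def ResidueDegreeLE {R A : Type} [CommRing R] [CommRing A] [Algebra R A] (f : R) (𝔮 : Ideal A)
    (d : ℕ) : Prop :=
  ∃ g : R, ¬ f ∣ g ∧ ∃ a : Fin d → A, ∀ b : A, ∃ ρ : Fin d → R,
    algebraMap R A g * b - ∑ l, algebraMap R A (ρ l) * a l ∈ 𝔮

/-- The `𝔮_c` are the prime ideals of `A` above the prime ideals generated by the affine equations of
the `F_j` (`𝔮_c` is above `F_{J(c)}`), with the ramification indices `e_c` and the residue degrees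
`d_c`. (The residue degrees are at most `d_c`; since the sum of the `e_c d_c` over the `𝔮_c` above
`F_j` is the rank `N` of `A`, they are equal to `d_c`.) -/
structure PrimeDivisors (A : Type) [CommRing A] [Algebra (MvPolynomial (Fin n) ℚ) A] (N : ℕ)
    (F : Fin r → MvPolynomial (Fin (n + 1)) ℤ) (J : Fin q → Fin r) (𝔮 : Fin q → Ideal A)
    (e d : Fin q → ℕ) : Prop where
  prime : ∀ c, (𝔮 c).IsPrime
  above : ∀ c, (𝔮 c).comap (algebraMap (MvPolynomial (Fin n) ℚ) A) =
    Ideal.span {affine (F (J c))}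
  distinct : Function.Injective 𝔮
  all : ∀ j, ∀ 𝔭 : Ideal A, 𝔭.IsPrime →
    𝔭.comap (algebraMap (MvPolynomial (Fin n) ℚ) A) = Ideal.span {affine (F j)} →
    ∃ c, J c = j ∧ 𝔭 = 𝔮 c
  ramification : ∀ c, RamificationIndex (affine (F (J c))) (𝔮 c) (e c)
  residue : ∀ c, ResidueDegreeLE (affine (F (J c))) (𝔮 c) (d c)
  sum : ∀ j, ∑ c with J c = j, e c * d c = N

open Classical in
/-- `0` if the prime divisor `𝔮` is contained in the closed subset given by `Y`, and its ramification
index `e` if it is not -/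
noncomputable def index {A : Type} [CommRing A] (Y : Finset A) (𝔮 : Ideal A) (e : ℕ) : ℕ :=
  if ∀ y ∈ Y, y ∈ 𝔮 then 0 else e

/-- `F = 0` is an orbit of conjugate hyperplanes of rank `m`: `F(x) = c N_{E/ℚ}(∑ α_i x_i)` for a
number field `E`, a rational number `c` and elements `α_i` of `E` which span a space of dimension
`m` over `ℚ` -/
def IsNormForm (F : MvPolynomial (Fin (n + 1)) ℤ) (m : ℕ) : Prop :=
  ∃ (E : Type) (_ : Field E) (_ : NumberField E) (α : Fin (n + 1) → E) (c : ℚ),
    Module.finrank ℚ (Submodule.span ℚ (Set.range α)) = m ∧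
    ∀ x : Fin (n + 1) → ℤ, (eval x F : ℚ) = c * Algebra.norm ℚ (∑ i, (x i : E) * α i)

/-- `k` if `k < 3 a`, otherwise `2 a + (k mod a) / (⌊k / a⌋ - 1)` -/
noncomputable def weight (a : ℝ) (k : ℕ) : ℝ :=
  if (k : ℝ) < 3 * a then k
  else 2 * a + ((k : ℝ) - ⌊(k : ℝ) / a⌋₊ * a) / (⌊(k : ℝ) / a⌋₊ - 1)

/-- the weight of a prime divisor with the index `e` (`0` if it is contained in `D`, otherwise its
ramification index; `1 / 0 = 0`) and the image of degree `k` -/
noncomputable def orbWeight (a : ℝ) (e k : ℕ) : ℝ :=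
  if (k : ℝ) < 3 * a then (1 - 1 / (e : ℝ)) * k
  else if e.Prime ∧ (k : ℝ) < (e + 1) * a then (1 - 1 / (e : ℝ)) * weight a k
  else max ((1 - 1 / (e : ℝ)) * a) (weight a k - k / e)

/-- the weights of a prime divisor with the index `e` and the image `F = 0` of degree `k`:
`orbWeight (1 + 1 / n) e k`, and `orbWeight m e k` if the image is an orbit of conjugate hyperplanes
of rank `m` -/
def HasWeight (F : MvPolynomial (Fin (n + 1)) ℤ) (e k : ℕ) (w : ℝ) : Prop :=
  w = orbWeight (1 + 1 / (n : ℝ)) e k ∨ ∃ m : ℕ, 1 ≤ m ∧ IsNormForm F m ∧ w = orbWeight m e k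

/-- the exponential of the height of the point with homogeneous coordinates `x` (coprime integers) -/
def height (x : Fin (n + 1) → ℤ) : ℕ := Finset.univ.sup fun i => (x i).natAbs

/-- The height relative to the ideal `(F, G)` of the point with homogeneous coordinates `x` (coprime
integers), where `F` and `G` are forms of degrees `k` and `e`: the local height at the prime `p` is
`- log max (|F(x)|_p, |G(x)|_p)`, and the sum of these is `log gcd (F(x), G(x))`; the local height
at infinity is `- log max (|F(x)| / |x| ^ k, |G(x)| / |x| ^ e)`. -/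
noncomputable def idealHeight (F G : MvPolynomial (Fin (n + 1)) ℤ) (k e : ℕ)
    (x : Fin (n + 1) → ℤ) : ℝ :=
  Real.log (Int.gcd (eval x F) (eval x G)) -
    Real.log (max (|(eval x F : ℝ)| / (height x : ℝ) ^ k) (|(eval x G : ℝ)| / (height x : ℝ) ^ e))

/-- The proximity function of the hypersurface `R = 0` of degree `d` for the primes in `S` and the
infinite place: the local height at `p` is `- log |R(x)|_p`, and the local height at infinity is
`- log (|R(x)| / |x| ^ d)`. -/
noncomputable def proximity (S : Finset ℕ) (R : MvPolynomial (Fin (n + 1)) ℤ) (d : ℕ)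
    (x : Fin (n + 1) → ℤ) : ℝ :=
  ∑ p ∈ S, ((eval x R).natAbs.factorization p : ℝ) * Real.log p -
    Real.log (|(eval x R : ℝ)| / (height x : ℝ) ^ d)

/-- the absolute logarithmic discriminant `log |disc(L)| / [L : ℚ]` of a number field `L` -/
noncomputable def logDisc (L : Type) [Field L] [NumberField L] : ℝ :=
  Real.log |(discr L : ℝ)| / Module.finrank ℚ L

open Classical in
/-- The truncated counting function, outside `S`, of the closed subset of `Spec A` given by the
elements of `Y`, at the point `ψ` over `L`: the sum of `log N(w) / [L : ℚ]` over the primes `w` of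
`L`, not above the primes in `S`, with `|ψ(z_i)|_w ≤ 1` for all `i` and `|ψ(y)|_w < 1` for all
`y ∈ Y`. -/
noncomputable def truncated {A : Type} [CommRing A] [Algebra (MvPolynomial (Fin n) ℚ) A]
    (Y : Finset A) (S : Finset ℕ) {L : Type} [Field L] [NumberField L] (ψ : A →+* L) : ℝ :=
  (∑ᶠ w : HeightOneSpectrum (𝓞 L), if (∀ p ∈ S, (p : 𝓞 L) ∉ w.asIdeal) ∧
    (∀ i : Fin n, FinitePlace.mk w (ψ (algebraMap (MvPolynomial (Fin n) ℚ) A (X i))) ≤ 1) ∧
    (∀ y ∈ Y, FinitePlace.mk w (ψ y) < 1) then Real.log (Ideal.absNorm w.asIdeal) else 0) /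
      Module.finrank ℚ L

/-- The point with homogeneous coordinates `x` (coprime integers) is not on `x_0 = 0`, on any
`F_j = 0`, `F'_l = 0`, nor on `R = 0`, and for all number fields `L` of degree `N` and all points
`ψ` of `Spec A` with the residue field `L` above `x`, not in the closed subset given by `Y`, and all
finite sets `S` of primes:
`θ h + M m_{S'}(R, x) + Λ ∑ h_{(F'_l, G'_l)}(x) ≤ d(L) + N_S^{(1)}(Y, ψ) + ∑_{p ∈ S} log p`. -/
def AllPointsAbove (A : Type) [CommRing A] [Algebra (MvPolynomial (Fin n) ℚ) A] (N : ℕ)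
    (F : Fin r → MvPolynomial (Fin (n + 1)) ℤ) (Y : Finset A) (S' : Finset ℕ)
    (R : MvPolynomial (Fin (n + 1)) ℤ) (dR : ℕ)
    (F' G' : Fin t → MvPolynomial (Fin (n + 1)) ℤ) (k' e' : Fin t → ℕ) (M Λ : ℕ) (θ h : ℝ)
    (x : Fin (n + 1) → ℤ) : Prop :=
  x 0 ≠ 0 ∧ (∀ j, eval x (F j) ≠ 0) ∧ (∀ l, eval x (F' l) ≠ 0) ∧ eval x R ≠ 0 ∧
  ∀ (L : Type) [Field L] [NumberField L] (ψ : A →+* L),
    (∀ f : MvPolynomial (Fin n) ℚ, ψ (algebraMap (MvPolynomial (Fin n) ℚ) A f) =
      algebraMap ℚ L (eval (coords x) f)) →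
    Function.Surjective ψ → Module.finrank ℚ L = N → (∃ y ∈ Y, ψ y ≠ 0) →
    ∀ S : Finset ℕ, (∀ p ∈ S, p.Prime) →
    θ * h + M * proximity S' R dR x + Λ * ∑ l, idealHeight (F' l) (G' l) (k' l) (e' l) x ≤
      logDisc L + truncated (n := n) Y S ψ + ∑ p ∈ S, Real.log p

/-- The rational points `x` (given by coprime integral coordinates, `x_0 ≠ 0`) which are good
approximations of the point `y` of a metric space, in which the rational point `x` is represented by
`ι x`: the distance is at most `height(x) ^ (-(n + 1 - δ) / s)`. -/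
def Near {Y : Type} [MetricSpace Y] (ι : (Fin (n + 1) → ℤ) → Y) (s : ℝ) (y : Y) (δ : ℝ) :
    Set (Fin (n + 1) → ℤ) :=
  {x | Finset.univ.gcd x = 1 ∧ x 0 ≠ 0 ∧
    dist y (ι x) ≤ (height x : ℝ) ^ (-(((n : ℝ) + 1 - δ) / s))}

/-- the affine coordinates `x_i / x_0` as a real point -/
noncomputable def realPoint (x : Fin (n + 1) → ℤ) : Fin n → ℝ := fun i => (x i.succ : ℝ) / x 0

/-- there is `δ > 0` such that the inequality holds for all points above all but finitely many of the
rational points in `W δ` -/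
def Along (W : ℝ → Set (Fin (n + 1) → ℤ)) (A : Type) [CommRing A]
    [Algebra (MvPolynomial (Fin n) ℚ) A] (N : ℕ) (F : Fin r → MvPolynomial (Fin (n + 1)) ℤ)
    (Y : Finset A) (S' : Finset ℕ) (R : MvPolynomial (Fin (n + 1)) ℤ) (dR : ℕ)
    (F' G' : Fin t → MvPolynomial (Fin (n + 1)) ℤ) (k' e' : Fin t → ℕ) (M Λ : ℕ) (θ : ℝ) : Prop :=
  ∃ δ : ℝ, 0 < δ ∧ {x | x ∈ W δ ∧
    ¬ AllPointsAbove A N F Y S' R dR F' G' k' e' M Λ θ (Real.log (height x)) x}.Finite

/-- **Vojta's inequality for all covers of `ℙⁿ` and all divisors, above all but finitely many of the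
rational points in `W δ`** (where the sets `W δ` shrink as `δ` tends to `0`, and `δ` may depend on the
cover and the divisors) -/
def VojtaAlong (n : ℕ) (W : ℝ → Set (Fin (n + 1) → ℤ)) : Prop :=
  -- for all covers
  ∀ (A : Type) [CommRing A] [IsDomain A] [IsIntegrallyClosed A]
    [Algebra (MvPolynomial (Fin n) ℚ) A] [FaithfulSMul (MvPolynomial (Fin n) ℚ) A]
    [Module.Finite (MvPolynomial (Fin n) ℚ) A]
    (N : ℕ) (_ : Module.finrank (MvPolynomial (Fin n) ℚ) A = N)
    -- all hypersurfaces and the prime divisors above them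
    (r q t : ℕ) (F : Fin r → MvPolynomial (Fin (n + 1)) ℤ) (k : Fin r → ℕ)
    (_ : ∀ j, (F j).IsHomogeneous (k j))
    (_ : ∀ j, Irreducible (map (Int.castRingHom ℚ) (F j)))
    (_ : ∀ j, Irreducible (affine (F j)))
    (_ : ∀ i j, i ≠ j →
      ¬ Associated (map (Int.castRingHom ℚ) (F i)) (map (Int.castRingHom ℚ) (F j)))
    (J : Fin q → Fin r) (𝔮 : Fin q → Ideal A) (e d : Fin q → ℕ)
    (_ : PrimeDivisors A N F J 𝔮 e d)
    -- all `D` and `S'`
    (Y : Finset A) (S' : Finset ℕ) (_ : ∀ p ∈ S', p.Prime)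
    (w : Fin q → ℝ) (_ : ∀ c, HasWeight (F (J c)) (index Y (𝔮 c) (e c)) (k (J c)) (w c))
    -- all divisors `R = 0` and all ideals
    (R : MvPolynomial (Fin (n + 1)) ℤ) (dR : ℕ) (_ : R.IsHomogeneous dR) (_ : R ≠ 0)
    (F' G' : Fin t → MvPolynomial (Fin (n + 1)) ℤ) (k' e' : Fin t → ℕ)
    (_ : ∀ l, (F' l).IsHomogeneous (k' l))
    (_ : ∀ l, Irreducible (map (Int.castRingHom ℚ) (F' l)))
    (_ : ∀ l, ¬ map (Int.castRingHom ℚ) (F' l) ∣ map (Int.castRingHom ℚ) (G' l))
    (M Λ : ℕ),
    -- the inequality for all `θ < ∑ λ_c w_c`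
    (∀ θ : ℝ, 0 ≤ θ → θ < ∑ c, (e c * d c : ℝ) / N * w c →
      Along W A N F Y S' R dR F' G' k' e' M Λ θ) ∧
    -- Vojta's inequality
    ((n : ℝ) + 1 ≤
        ∑ c, (e c * d c : ℝ) / N * ((1 - 1 / (index Y (𝔮 c) (e c) : ℝ)) * k (J c)) →
      ∑ c, (e c * d c : ℝ) / N *
        ((1 - 1 / (index Y (𝔮 c) (e c) : ℝ)) * k (J c) - w c) ≤ n + 1 → ∀ ε : ℝ, 0 < ε →
      Along W A N F Y S' R dR F' G' k' e' M Λ
        (∑ c, (e c * d c : ℝ) / N * ((1 - 1 / (index Y (𝔮 c) (e c) : ℝ)) * k (J c)) -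
          (n + 1) - ε))

theorem prim_of_gcd {x : Fin (n + 1) → ℤ} (hg : Finset.univ.gcd x = 1) :
    ∃ c : Fin (n + 1) → ℤ, ∑ i, c i * x i = 1 := by
  obtain ⟨f, hf⟩ := Finset.gcd_eq_sum_mul Finset.univ x
  rw [hg] at hf
  exact ⟨f, by rw [hf]; exact Finset.sum_congr rfl fun i _ => mul_comm _ _⟩

theorem weights_le {F : MvPolynomial (Fin (n + 1)) ℤ} {k e : ℕ} {w : ℝ}
    (hw : HasWeight F e k w) : ∃ α, D0H41.OC.HasAlpha F α ∧ w ≤ D0H41.OC.ow α e k := by
  rcases hw with h | ⟨m, hm, h1, h2⟩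
  · exact ⟨_, Or.inl rfl, le_of_eq h⟩
  · exact ⟨_, Or.inr ⟨m, hm, h1, rfl⟩, le_of_eq h2⟩

theorem above_mono {A : Type} [CommRing A] [Algebra (MvPolynomial (Fin n) ℚ) A] {N : ℕ}
    {F : Fin r → MvPolynomial (Fin (n + 1)) ℤ} {Y : Finset A} {S' : Finset ℕ}
    {R : MvPolynomial (Fin (n + 1)) ℤ} {dR : ℕ}
    {F' G' : Fin t → MvPolynomial (Fin (n + 1)) ℤ} {k' e' : Fin t → ℕ} {M Λ : ℕ} {θ θ' h : ℝ}
    {x : Fin (n + 1) → ℤ} (hh : 0 ≤ h) (hθ : θ ≤ θ')
    (hI : AllPointsAbove A N F Y S' R dR F' G' k' e' M Λ θ' h x) :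
    AllPointsAbove A N F Y S' R dR F' G' k' e' M Λ θ h x := by
  obtain ⟨h0, h1, h2, h3, h4⟩ := hI
  refine ⟨h0, h1, h2, h3, ?_⟩
  intro L i1 i2 ψ hψ hs hL hY S hS
  have := h4 L ψ hψ hs hL hY S hS
  have := mul_le_mul_of_nonneg_right hθ hh
  linarith

theorem coef_mem (e : ℕ) : (0 : ℝ) ≤ 1 - 1 / (e : ℝ) ∧ 1 - 1 / (e : ℝ) ≤ 1 := by
  rcases Nat.eq_zero_or_pos e with rfl | he
  · norm_num
  · have he0 : (1 : ℝ) ≤ e := by exact_mod_cast he
    have h1 : (0 : ℝ) ≤ 1 / (e : ℝ) := by positivity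
    have h2 : 1 / (e : ℝ) ≤ 1 := by
      rw [div_le_one (by linarith)]
      exact he0
    constructor <;> linarith

theorem orbWeight_nonneg (a : ℝ) (e k : ℕ) (ha : 0 < a) : 0 ≤ orbWeight a e k := by
  obtain ⟨h0, -⟩ := coef_mem e
  unfold orbWeight
  split_ifs with h1 h2
  · exact mul_nonneg h0 (Nat.cast_nonneg _)
  · refine mul_nonneg h0 ?_
    have : 2 * a ≤ weight a k := N445.DF.wgt_two a k ha (by linarith)
    linarith
  · exact le_max_of_le_left (mul_nonneg h0 ha.le)

theorem orbWeight_pos (a : ℝ) (e k : ℕ) (ha : 0 < a) (he : e ≠ 1) (hk : 1 ≤ k) :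
    0 < orbWeight a e k := by
  have h0 : (0 : ℝ) < 1 - 1 / (e : ℝ) := by
    rcases Nat.eq_zero_or_pos e with rfl | he0
    · norm_num
    · have he2 : (2 : ℝ) ≤ e := by exact_mod_cast (by omega : 2 ≤ e)
      rw [sub_pos, div_lt_one (by linarith)]
      linarith
  have hk0 : (0 : ℝ) < k := by exact_mod_cast hk
  unfold orbWeight
  split_ifs with h1 h2
  · exact mul_pos h0 hk0
  · refine mul_pos h0 ?_
    have : 2 * a ≤ weight a k := N445.DF.wgt_two a k ha (by linarith)
    linarith
  · exact lt_max_of_lt_left (mul_pos h0 ha)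

theorem nat_gap (a : ℝ) (e k : ℕ) (b : ℝ) (hb : 0 ≤ b)
    (h : (k : ℝ) - weight a k ≤ b) : (1 - 1 / (e : ℝ)) * k - orbWeight a e k ≤ b := by
  obtain ⟨h0, h01⟩ := coef_mem e
  unfold orbWeight
  split_ifs with h1 h2
  · linarith
  · have h3 : (1 - 1 / (e : ℝ)) * ((k : ℝ) - weight a k) ≤ (1 - 1 / (e : ℝ)) * b :=
      mul_le_mul_of_nonneg_left h h0
    have h4 : (1 - 1 / (e : ℝ)) * b ≤ 1 * b := mul_le_mul_of_nonneg_right h01 hb
    linarith
  · have h3 := le_max_right ((1 - 1 / (e : ℝ)) * a) (weight a k - k / e)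
    have h4 : (1 - 1 / (e : ℝ)) * k = k - k / e := by ring
    linarith

/-- the points above `x` -/
theorem above_of {A : Type} [CommRing A] [Algebra (MvPolynomial (Fin n) ℚ) A] {N : ℕ}
    {F H : Fin r → MvPolynomial (Fin (n + 1)) ℤ} {J : Fin q → Fin r} {e : Fin q → ℕ}
    {Y : Finset A} {S' : Finset ℕ} {R : MvPolynomial (Fin (n + 1)) ℤ} {dR : ℕ}
    {F' G' : Fin t → MvPolynomial (Fin (n + 1)) ℤ} {k' e' : Fin t → ℕ} {M Λ c₀ : ℕ} {θ h C : ℝ}
    {x : Fin (n + 1) → ℤ} {lam : Fin q → ℝ} (hC : C ≤ c₀)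
    (hcov : (∀ j, eval x (F j) ≠ 0) →
      ∀ (L : Type) [Field L] [NumberField L] (ψ : A →+* L),
        (∀ f : MvPolynomial (Fin n) ℚ, ψ (algebraMap (MvPolynomial (Fin n) ℚ) A f) =
          algebraMap ℚ L (eval (D0H41.OC.crd x) f)) → Function.Surjective ψ →
        Module.finrank ℚ L = N → (∃ y ∈ Y, ψ y ≠ 0) → ∀ S : Finset ℕ, (∀ p ∈ S, p.Prime) →
        D0H41.OC.Psi F H J e lam x - C ≤
          D0H41.OC.ld L + D0H41.OC.tcount (n := n) Y S ψ + ∑ p ∈ S, Real.log p)
    (hI : D0H41.OC.Ineq2 F H J e lam F' G' k' e' R dR S' M Λ c₀ θ h x) :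
    AllPointsAbove A N F Y S' R dR F' G' k' e' M Λ θ h x := by
  obtain ⟨h0, h1, h2, h3, h4⟩ := hI
  refine ⟨h0, h1, h2, h3, ?_⟩
  intro L _ _ ψ hψ hs hL hY S hS
  have h5 := hcov h1 L ψ hψ hs hL hY S hS
  have h6 : θ * h + M * proximity S' R dR x + Λ * ∑ l, idealHeight (F' l) (G' l) (k' l) (e' l) x +
      c₀ ≤ D0H41.OC.Psi F H J e lam x := h4
  have h7 : logDisc L = D0H41.OC.ld L := rfl
  have h8 : truncated (n := n) Y S ψ = D0H41.OC.tcount (n := n) Y S ψ := rfl
  rw [h7, h8]
  linarith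

/-- the rational points near `y` in terms of logarithmic heights -/
theorem near_exp {Y : Type} [MetricSpace Y] {ι : (Fin (n + 1) → ℤ) → Y} {s : ℝ} {y : Y} {δ : ℝ}
    {x : Fin (n + 1) → ℤ} (hx : x ∈ Near ι s y δ) :
    dist y (ι x) ≤ Real.exp (-(((n : ℝ) + 1 - δ) / s * Real.log (N445.VW.ht x))) := by
  obtain ⟨h1, h2, h3⟩ := hx
  refine h3.trans (le_of_eq ?_)
  have h4 : height x = N445.VW.ht x := rfl
  have h5 : 0 < N445.VW.ht x := by
    obtain ⟨c, hc⟩ := prim_of_gcd h1
    exact D0H41.OC.one_le_ht ⟨c, hc⟩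
  rw [h4, Real.rpow_def_of_pos (by exact_mod_cast h5)]
  congr 1
  ring

/-- the inequality outside the exceptional sets -/
theorem vojta_metric (n : ℕ) (hn : 2 ≤ n) (Y : Type) [MetricSpace Y]
    (ι : (Fin (n + 1) → ℤ) → Y) (s : ℝ) (hs : 0 < s) :
    ∃ Θ : ℕ → Set Y, (∀ i, dimH (Θ i) < ENNReal.ofReal s) ∧
      ∀ y, (∀ i, y ∉ Θ i) → VojtaAlong n (Near ι s y) := by
  have hn0 : (0 : ℝ) < n := by exact_mod_cast (by omega : 0 < n)
  have hnn : (0 : ℝ) < 1 / (n : ℝ) := by positivity
  obtain ⟨Θ, hΘ, hall⟩ := D0H48.Mv.one_metric hn ι s hs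
  refine ⟨Θ, hΘ, fun y hy => ?_⟩
  intro A _ _ _ _ _ _ N hN r q t F k hhom hirr haff hdist J 𝔮 e d hP Y S' hS w hw R dR hR hR0
      F' G' k' e' hhom' hirr' hcop M Λ
  obtain ⟨H, E, C, -, hH, hcov⟩ := D0H41.OC.cover_gen A hN F k hhom hirr haff hdist J 𝔮 hP.prime
    hP.above hP.distinct hP.all e d hP.ramification hP.residue hP.sum Y
  obtain ⟨c₀, hc₀⟩ : ∃ c₀ : ℕ, C ≤ c₀ := exists_nat_ge C
  obtain ⟨lam, hlam⟩ : ∃ lam : Fin q → ℚ, ∀ c, lam c = (e c * d c : ℕ) / (N : ℚ) :=
    ⟨_, fun _ => rfl⟩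
  have hlamr : (fun c => ((lam c : ℚ) : ℝ)) = fun c => ((e c * d c : ℕ) : ℝ) / N := by
    funext c
    rw [hlam]
    push_cast
    rfl
  have hHyp : D0H41.OC.Hyp F H J (fun c => index Y (𝔮 c) (e c)) (fun c => ((lam c : ℚ) : ℝ))
      F' G' k' R dR S' k w :=
    ⟨hhom, hirr, hH, fun c => by
      rw [hlam]
      have h1 : (0 : ℚ) ≤ (e c * d c : ℕ) / (N : ℚ) := by positivity
      exact_mod_cast h1,
      fun c => weights_le (hw c), hhom', hirr', hcop, hR, hR0, hS⟩
  have hsum : ∑ c, ((lam c : ℚ) : ℝ) * w c = ∑ c, (e c * d c : ℝ) / N * w c := by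
    refine Finset.sum_congr rfl fun c _ => ?_
    rw [hlam]
    push_cast
    rfl
  have hOut : ∀ θ : ℝ, 0 ≤ θ → θ < ∑ c, (e c * d c : ℝ) / N * w c →
      Along (Near ι s y) A N F Y S' R dR F' G' k' e' M Λ θ := by
    intro θ hθ0 hθ
    obtain ⟨δ, hδ, hT⟩ := hall y hy r q t F H J (fun c => index Y (𝔮 c) (e c)) lam F' G' k' e' R dR
      S' M Λ c₀ k w hHyp θ hθ0 (by rw [hsum]; exact hθ)
    refine ⟨δ, hδ, hT.subset ?_⟩
    rintro x ⟨hx, hbad⟩
    refine ⟨prim_of_gcd hx.1, near_exp hx, fun hI => hbad ?_⟩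
    refine above_of hc₀ (hcov x) ?_
    rw [← hlamr]
    exact hI
  refine ⟨hOut, fun hK hgap ε hε => ?_⟩
  have hlt : ∑ c, (e c * d c : ℝ) / N * ((1 - 1 / (index Y (𝔮 c) (e c) : ℝ)) * k (J c)) -
      (n + 1) - ε < ∑ c, (e c * d c : ℝ) / N * w c := by
    have h1 : ∑ c, (e c * d c : ℝ) / N *
        ((1 - 1 / (index Y (𝔮 c) (e c) : ℝ)) * k (J c) - w c) =
        ∑ c, (e c * d c : ℝ) / N * ((1 - 1 / (index Y (𝔮 c) (e c) : ℝ)) * k (J c)) -
        ∑ c, (e c * d c : ℝ) / N * w c := by
      rw [← Finset.sum_sub_distrib]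
      exact Finset.sum_congr rfl fun c _ => mul_sub _ _ _
    rw [h1] at hgap
    linarith
  have hl0 : ∀ c, (0 : ℝ) ≤ (e c * d c : ℝ) / N := fun c => by positivity
  have hw0 : ∀ c, 0 ≤ (e c * d c : ℝ) / N * w c := by
    intro c
    refine mul_nonneg (hl0 c) ?_
    rcases hw c with h | ⟨m, hm, -, h⟩
    · rw [h]
      exact orbWeight_nonneg _ _ _ (by linarith)
    · rw [h]
      exact orbWeight_nonneg _ _ _ (by exact_mod_cast hm)
  have hpos : 0 < ∑ c, (e c * d c : ℝ) / N * w c := by
    by_contra hcon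
    have hz : ∀ c, (e c * d c : ℝ) / N * w c = 0 := by
      have h1 : ∑ c, (e c * d c : ℝ) / N * w c = 0 :=
        le_antisymm (not_lt.1 hcon) (Finset.sum_nonneg fun j _ => hw0 j)
      intro j
      exact (Finset.sum_eq_zero_iff_of_nonneg fun j _ => hw0 j).1 h1 j (Finset.mem_univ j)
    have h3 : ∑ c, (e c * d c : ℝ) / N *
        ((1 - 1 / (index Y (𝔮 c) (e c) : ℝ)) * k (J c)) = 0 := by
      refine Finset.sum_eq_zero fun c _ => ?_
      rcases mul_eq_zero.1 (hz c) with h | h
      · rw [h, zero_mul]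
      · have he1 : index Y (𝔮 c) (e c) = 1 := by
          by_contra hne
          have hk1 := N445.VW.one_le_of_irr (F (J c)) (hhom (J c)) (hirr (J c))
          have h2 : 0 < w c := by
            rcases hw c with h | ⟨m, hm, -, h⟩
            · rw [h]
              exact orbWeight_pos _ _ _ (by linarith) hne hk1
            · rw [h]
              exact orbWeight_pos _ _ _ (by exact_mod_cast hm) hne hk1
          rw [h] at h2
          exact lt_irrefl _ h2
        rw [he1]
        simp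
    rw [h3] at hK
    linarith
  obtain ⟨δ, hδ, hfin⟩ := hOut (max (∑ c, (e c * d c : ℝ) / N *
    ((1 - 1 / (index Y (𝔮 c) (e c) : ℝ)) * k (J c)) - (n + 1) - ε) 0)
    (le_max_right _ _) (max_lt hlt hpos)
  refine ⟨δ, hδ, hfin.subset ?_⟩
  rintro x ⟨hx, hbad⟩
  exact ⟨hx, fun hI => hbad (above_mono (Real.log_natCast_nonneg _) (le_max_left _ 0) hI)⟩

/-- the points with rational coordinates are a null set -/
theorem ae_irrational (n : ℕ) (hn : 1 ≤ n) : ∀ᵐ ξ : Fin n → ℝ, ∃ i, Irrational (ξ i) := by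
  have : Nonempty (Fin n) := ⟨⟨0, by omega⟩⟩
  have hc : (Set.range fun (r : Fin n → ℚ) (i : Fin n) => ((r i : ℚ) : ℝ)).Countable :=
    Set.countable_range _
  have h0 : MeasureTheory.volume (Set.range fun (r : Fin n → ℚ) (i : Fin n) => ((r i : ℚ) : ℝ)) =
      0 := hc.measure_zero _
  have h1 : ∀ᵐ ξ : Fin n → ℝ, ξ ∉ Set.range fun (r : Fin n → ℚ) (i : Fin n) => ((r i : ℚ) : ℝ) :=
    MeasureTheory.measure_eq_zero_iff_ae_notMem.1 h0
  filter_upwards [h1] with ξ hξ
  by_contra hcon
  push Not at hcon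
  refine hξ ?_
  have h2 : ∀ i, ∃ r : ℚ, (r : ℝ) = ξ i := by
    intro i
    have := hcon i
    unfold Irrational at this
    push Not at this
    exact this
  choose r hr using h2
  exact ⟨r, funext hr⟩

/-- **Vojta's inequality on all covers of `ℙⁿ`, for all divisors, above the good rational
approximations of almost all points.** -/
theorem result (n : ℕ) (hn : 2 ≤ n) :
    -- for all metric spaces, outside a countable union of sets of smaller dimension
    (∀ (Y : Type) [MetricSpace Y] (ι : (Fin (n + 1) → ℤ) → Y) (s : ℝ), 0 < s →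
      ∃ Θ : ℕ → Set Y, (∀ i, dimH (Θ i) < ENNReal.ofReal s) ∧
        ∀ y, (∀ i, y ∉ Θ i) → VojtaAlong n (Near ι s y)) ∧
    -- for almost all real points
    (∀ᵐ ξ : Fin n → ℝ, (∀ δ : ℝ, 0 < δ → (Near realPoint n ξ δ).Infinite) ∧
      VojtaAlong n (Near realPoint n ξ)) ∧
    -- the weights
    (∀ e k : ℕ, k ≤ 3 → orbWeight (1 + 1 / (n : ℝ)) e k = (1 - 1 / (e : ℝ)) * k) ∧
    (n = 2 → ∀ e : ℕ, orbWeight (1 + 1 / (n : ℝ)) e 4 = (1 - 1 / (e : ℝ)) * 4) ∧
    (∀ e k : ℕ, n * k ≤ (n + 1) * (n + 2) →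
      (1 - 1 / (e : ℝ)) * k - orbWeight (1 + 1 / (n : ℝ)) e k ≤ n + 1) ∧
    (∀ m e k : ℕ, k < 3 * m → orbWeight m e k = (1 - 1 / (e : ℝ)) * k) := by
  have hn0 : (0 : ℝ) < n := by exact_mod_cast (by omega : 0 < n)
  have hnn : (0 : ℝ) < 1 / (n : ℝ) := by positivity
  refine ⟨fun Y _ ι s hs => vojta_metric n hn Y ι s hs, ?_, ?_, ?_, ?_, ?_⟩
  · obtain ⟨Θ, hΘ, hall⟩ := vojta_metric n hn (Fin n → ℝ) realPoint n hn0
    have h1 : ∀ᵐ ξ : Fin n → ℝ, ∀ i, ξ ∉ Θ i := by
      rw [MeasureTheory.ae_all_iff]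
      intro i
      apply MeasureTheory.measure_eq_zero_iff_ae_notMem.1
      apply D0H48.Mv.haar_null
      rw [Module.finrank_fin_fun]
      exact hΘ i
    filter_upwards [h1, ae_irrational n (by omega)] with ξ hξ hirr
    exact ⟨fun δ hδ => D0H48.Mv.near_infinite (by omega) ξ hirr δ hδ, hall ξ hξ⟩
  · intro e k hk
    have hk3 : (k : ℝ) ≤ 3 := by exact_mod_cast hk
    unfold orbWeight
    rw [if_pos (by linarith)]
  · intro h e
    subst h
    unfold orbWeight
    rw [if_pos (by norm_num)]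
    norm_num
  · intro e k hk
    exact nat_gap _ e k _ (by positivity) (N445.DF.wgt_sub_gen n k hn hk)
  · intro m e k hk
    have hk' : (k : ℝ) < 3 * m := by exact_mod_cast hk
    unfold orbWeight
    rw [if_pos hk']

end Pool.Agent.Results.MP_9b9442_nt.MetricCovers
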