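import Pool.Agent.D0H85.BD.Tfae

set_option autoImplicit false

/-!
# Sparse algebraic points of bounded degree

`X` is a projective variety over a number field `K`, given by the forms in `G`, and `Z` is the closed
subset of `X` given by the forms `H l`.

An algebraic point of degree at most `d` over a number field `L ⊇ K` has homogeneous coordinates
`A i (θ)`, where `θ` is a root of a polynomial `f` over `L` of degree at most `d` and the `A i` are
polynomials over `L`. It is called sparse if all the coefficients of `f` and of the `A i` are sums of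
`N` products of an element of bounded height and an `S`-unit.

For all `X`, `Z` and `d`, the sparse points of degree at most `d` are finite in number outside of `Z`,
for all `L`, `S`, `N` and all bounds, if and only if `X \ Z` has no nonconstant points of degree at
most `d` over the fields `Ω(t)` of rational functions in one variable over algebraically closed
fields `Ω ⊇ K`, that is, if and only if `Z` contains all curves of gonality at most `d` on `X`.
-/

namespace Pool.Agent.Results.MP_9b9442_nt.SparsePointsOfBoundedDegree

open NumberField IsDedekindDomain Height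
open scoped LinearAlgebra.Projectivization IntermediateField
open Pool.Agent.Helper259.AbsHt (Qbar absLogHeight)

/-- The point with homogeneous coordinates `y` lies on `X` and outside of `Z`. -/
def OnOff {K : Type} [Field K] {n r : ℕ} (G : Set (MvPolynomial (Fin (n + 1)) K))
    (H : Fin r → MvPolynomial (Fin (n + 1)) K) {M : Type} [Field M] (ψ : K →+* M)
    (y : Fin (n + 1) → M) : Prop :=
  (∀ g ∈ G, g.eval₂ ψ y = 0) ∧ ∃ l, (H l).eval₂ ψ y ≠ 0

/-- The point with homogeneous coordinates `y` has degree at most `d` over `F`: the ratios of the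
coordinates generate an extension of `F` of degree at most `d`. -/
def DegreeLE (F : Type) {M : Type} [Field F] [Field M] [Algebra F M] {n : ℕ} (d : ℕ)
    (y : Fin (n + 1) → M) : Prop :=
  Module.rank F (IntermediateField.adjoin F {z : M | ∃ i j, z = y i / y j}) ≤ (d : Cardinal)

/-- The point with homogeneous coordinates `y` is defined over `Ω`. -/
def Constant (Ω : Type) {M : Type} [Field Ω] [Field M] [Algebra Ω M] {n : ℕ}
    (y : Fin (n + 1) → M) : Prop :=
  ∀ i j, ∃ c : Ω, y i / y j = algebraMap Ω M c

/-- All points of `X \ Z` of degree at most `d` over a field `Ω(t)`, `t` transcendental over the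
extension `Ω` of `K`, are defined over `Ω`. If `Ω` is algebraically closed this means that `Z`
contains all curves on `X` over `Ω` which have gonality at most `d`. -/
def OnlyConstantPoints {K : Type} [Field K] {n r : ℕ} (d : ℕ)
    (G : Set (MvPolynomial (Fin (n + 1)) K)) (H : Fin r → MvPolynomial (Fin (n + 1)) K)
    (Ω : Type) [Field Ω] (ψ : K →+* Ω) : Prop :=
  ∀ (M : Type) [Field M] [Algebra Ω M] (t : M) (y : Fin (n + 1) → M), Transcendental Ω t → y ≠ 0 →
    OnOff G H ((algebraMap Ω M).comp ψ) y → DegreeLE Ω⟮t⟯ d y → Constant Ω y

/-- `y` is a sum of `N` products of an element of logarithmic height at most `T` and an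
`S`-unit. -/
def Sparse {L : Type} [Field L] [NumberField L] (S : Set (HeightOneSpectrum (𝓞 L))) (N : ℕ) (T : ℝ)
    (y : L) : Prop :=
  ∃ (a : Fin N → L) (u : Fin N → Lˣ), (∀ j, logHeight₁ (a j) ≤ T) ∧ (∀ j, u j ∈ S.unit L) ∧
    y = ∑ j, a j * (u j : L)

/-- `x i = A i (θ)`, where the degree of `A i` is at most `N` and `θ` is a root of a nonzero
polynomial `f` of degree at most `d`, and all coefficients of `f` and of the `A i` are elements of `L`
which are `Sparse S N T`. -/
def SparsePoint {L : Type} [Field L] [NumberField L] (φ : L →+* Qbar)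
    (S : Set (HeightOneSpectrum (𝓞 L))) (N : ℕ) (T : ℝ) (d : ℕ) {n : ℕ}
    (x : Fin (n + 1) → Qbar) : Prop :=
  ∃ (θ : Qbar) (f : Polynomial L) (A : Fin (n + 1) → Polynomial L), f ≠ 0 ∧ f.natDegree ≤ d ∧
    f.eval₂ φ θ = 0 ∧ (∀ j, Sparse S N T (f.coeff j)) ∧
    ∀ i, (A i).natDegree ≤ N ∧ (∀ j, Sparse S N T ((A i).coeff j)) ∧ x i = (A i).eval₂ φ θ

/-- The set of the points of `X \ Z`, of degree at most `d` over `L`, which have homogeneous
coordinates as in `SparsePoint`. -/
def points {K : Type} [Field K] {n r : ℕ} (d : ℕ) (G : Set (MvPolynomial (Fin (n + 1)) K))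
    (H : Fin r → MvPolynomial (Fin (n + 1)) K) (L : Type) [Field L] [NumberField L] [Algebra K L]
    (φ : L →+* Qbar) (S : Set (HeightOneSpectrum (𝓞 L))) (N : ℕ) (T : ℝ) :
    Set (ℙ Qbar (Fin (n + 1) → Qbar)) :=
  {P | ∃ (x : Fin (n + 1) → Qbar) (hx : x ≠ 0), P = Projectivization.mk Qbar x hx ∧
    SparsePoint φ S N T d x ∧ OnOff G H (φ.comp (algebraMap K L)) x}

/-- **Theorem.** Let `K` be a number field, `X` a projective variety over `K`, `Z ⊆ X` closed and `d`
a natural number. The following are equivalent.
1. For all algebraically closed extensions `Ω` of `K`, all points of `X \ Z` of degree at most `d`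
over the field of rational functions `Ω(t)` are constant.
2. The same for the algebraic closure of `K` alone.
3. For all number fields `L ⊇ K`, all finite `S` and all `N` there is `C` such that, for all
`T ≥ 0`, all points in `points d G H L φ S N T` have absolute logarithmic height at most
`C (1 + T)`.
4. All the sets `points d G H L φ S N T` are finite.
5. All the sets `points d G H L φ S N 0`, of points of degree at most `d` given by polynomials whose
coefficients are sums of at most `N` `S`-units, are finite. -/
theorem result (K : Type) [Field K] [NumberField K] (n r d : ℕ)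
    (G : Set (MvPolynomial (Fin (n + 1)) K)) (H : Fin r → MvPolynomial (Fin (n + 1)) K)
    (hG : ∀ g ∈ G, ∃ e, g.IsHomogeneous e) (hH : ∀ l, ∃ e, (H l).IsHomogeneous e) :
    List.TFAE [
      ∀ (Ω : Type) [Field Ω] [IsAlgClosed Ω] (ψ : K →+* Ω), OnlyConstantPoints d G H Ω ψ,
      OnlyConstantPoints d G H (AlgebraicClosure K) (algebraMap K (AlgebraicClosure K)),
      ∀ (L : Type) [Field L] [NumberField L] [Algebra K L] (φ : L →+* Qbar)
        (S : Set (HeightOneSpectrum (𝓞 L))), S.Finite → ∀ N : ℕ, ∃ C : ℝ, ∀ T : ℝ, 0 ≤ T →
          ∀ x : Fin (n + 1) → Qbar, x ≠ 0 → SparsePoint φ S N T d x →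
            OnOff G H (φ.comp (algebraMap K L)) x → absLogHeight x ≤ C * (1 + T),
      ∀ (L : Type) [Field L] [NumberField L] [Algebra K L] (φ : L →+* Qbar)
        (S : Set (HeightOneSpectrum (𝓞 L))), S.Finite → ∀ (N : ℕ) (T : ℝ),
          (points d G H L φ S N T).Finite,
      ∀ (L : Type) [Field L] [NumberField L] [Algebra K L] (φ : L →+* Qbar)
        (S : Set (HeightOneSpectrum (𝓞 L))), S.Finite → ∀ N : ℕ,
          (points d G H L φ S N 0).Finite] :=
  Pool.Agent.D0H85.BD.tfae d G H hG hH

end Pool.Agent.Results.MP_9b9442_nt.SparsePointsOfBoundedDegree
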